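import Pool.Agent.V8H83.LM.Mult

set_option autoImplicit false

open Finset Polynomial

namespace Pool.Agent.V8H83.LM

lemma exists_Y (m : ℕ) : ∃ Y : PowerSeries ℚ, PowerSeries.constantCoeff Y ≠ 0 ∧
    ∀ V : PowerSeries ℚ, bb V m = V * Y := by
  obtain ⟨x, hx, hR⟩ := exists_b m
  obtain ⟨Y, hY, hc⟩ := (R_q (-((m : ℤ) * (m + 2)))).mul hR
  refine ⟨Y, ?_, ?_⟩
  · rw [hc]
    have h1 : ((2 * m + 1).factorial : ℚ) ≠ 0 := by exact_mod_cast Nat.factorial_ne_zero _
    have h2 : (m.factorial : ℚ) ≠ 0 := by exact_mod_cast Nat.factorial_ne_zero _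
    have h3 : ((-1 : ℚ)) ^ m ≠ 0 := pow_ne_zero _ (by norm_num)
    exact mul_ne_zero one_ne_zero (div_ne_zero (mul_ne_zero h3 h1) h2)
  · intro V
    have h := (exists_bb V m).choose_spec.1
    apply ofPS_inj
    apply mul_left_cancel₀ (pow_ne_zero m hh_ne)
    change hh ^ m * ((exists_bb V m).choose : LaurentSeries ℚ) = _
    refine h.symm.trans ?_
    rw [hx, PowerSeries.coe_mul, ← hY]
    ring

/-- the lowest coefficient of the difference of the series of two knots -/
lemma coeff_diff (a a' : ℕ → PowerSeries ℚ) (D : ℕ)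
    (hlow : ∀ m e, m + e < D → PowerSeries.coeff e (a m) = PowerSeries.coeff e (a' m)) :
    ∃ c : ℕ → ℚ, (∀ m, c m ≠ 0) ∧ PowerSeries.coeff D (S a) - PowerSeries.coeff D (S a') =
      ∑ m ∈ range (D + 1), C (c m * (PowerSeries.coeff (D - m) (a m) -
        PowerSeries.coeff (D - m) (a' m))) * X ^ m := by
  choose Y hY hbb using exists_Y
  refine ⟨fun m => (-1) ^ m * PowerSeries.constantCoeff (Y m), fun m => mul_ne_zero (pow_ne_zero _ (by norm_num)) (hY m), ?_⟩
  rw [S, S, PowerSeries.coeff_mk, PowerSeries.coeff_mk, ← Finset.sum_sub_distrib]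
  apply Finset.sum_congr rfl
  intro m hm
  have hmD : m ≤ D := by have := Finset.mem_range.1 hm; omega
  have h1 : PowerSeries.coeff D (T a m) - PowerSeries.coeff D (T a' m) =
      PowerSeries.coeff D (cst ((a m - a' m) * Y m) * U m) := by
    rw [T, T, hbb, hbb, sub_mul, map_sub, sub_mul, map_sub]
  rw [h1, PowerSeries.coeff_mul, Finset.sum_eq_single (D - m, m)]
  · rw [U_mid, cst, PowerSeries.coeff_map]
    have h2 : PowerSeries.coeff (D - m) ((a m - a' m) * Y m) =
        (PowerSeries.coeff (D - m) (a m) - PowerSeries.coeff (D - m) (a' m)) *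
          PowerSeries.constantCoeff (Y m) := by
      rw [PowerSeries.coeff_mul, Finset.Nat.sum_antidiagonal_eq_sum_range_succ
        (fun i j => PowerSeries.coeff i (a m - a' m) * PowerSeries.coeff j (Y m)) (D - m),
        Finset.sum_range_succ, Finset.sum_eq_zero, zero_add, Nat.sub_self,
        PowerSeries.coeff_zero_eq_constantCoeff_apply, map_sub]
      intro i hi
      have := Finset.mem_range.1 hi
      rw [map_sub, hlow m i (by omega), sub_self, zero_mul]
    rw [h2, neg_pow, ← mul_assoc]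
    congr 1
    rw [← C_1, ← C_neg, ← C_pow, ← C_mul]
    congr 1
    ring
  · rintro ⟨i, j⟩ hx hne
    have h := Finset.HasAntidiagonal.mem_antidiagonal.1 hx
    simp only at h
    simp only
    by_cases hj : j < m
    · rw [U_low m j hj, mul_zero]
    · have hlt : i < D - m := by
        rcases Nat.lt_or_ge i (D - m) with h5 | h5
        · exact h5
        · exfalso
          apply hne
          ext <;> simp only <;> omega
      have h3 : PowerSeries.coeff i (cst ((a m - a' m) * Y m)) = 0 := by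
        rw [cst, PowerSeries.coeff_map, PowerSeries.coeff_mul]
        rw [Finset.sum_eq_zero]
        · exact C_0
        intro x hx2
        have h6 := Finset.HasAntidiagonal.mem_antidiagonal.1 hx2
        rw [map_sub, hlow m x.1 (by omega), sub_self, zero_mul]
      rw [h3, zero_mul]
  · intro h
    exact absurd (Finset.HasAntidiagonal.mem_antidiagonal.2 (by simp only; omega)) h

theorem same_n (a a' : ℕ → PowerSeries ℚ) (ha : a 0 = 1) (ha' : a' 0 = 1) (m e : ℕ)
    (h : PowerSeries.coeff e (a m) ≠ PowerSeries.coeff e (a' m)) (s : Finset ℤ)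
    (hs : ∀ n ∈ s, n ≠ 0 ∧ ohtsuki a n = ohtsuki a' n) : s.card + 1 ≤ m + e := by
  classical
  have hex : ∃ D : ℕ, ∃ m e, m + e = D ∧ PowerSeries.coeff e (a m) ≠ PowerSeries.coeff e (a' m) :=
    ⟨m + e, m, e, rfl, h⟩
  set D := Nat.find hex with hD
  have hle : D ≤ m + e := Nat.find_le ⟨m, e, rfl, h⟩
  obtain ⟨m₁, e₁, h1, h2⟩ := Nat.find_spec hex
  rw [← hD] at h1
  have hlow : ∀ m e, m + e < D → PowerSeries.coeff e (a m) = PowerSeries.coeff e (a' m) := by
    intro m e hme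
    by_contra hk
    exact Nat.find_min hex hme ⟨m, e, rfl, hk⟩
  obtain ⟨c, hc, hP⟩ := coeff_diff a a' D hlow
  set P : ℚ[X] := ∑ m ∈ range (D + 1), C (c m * (PowerSeries.coeff (D - m) (a m) -
        PowerSeries.coeff (D - m) (a' m))) * X ^ m with hPdef
  have hcoef : ∀ k ≤ D, P.coeff k = c k * (PowerSeries.coeff (D - k) (a k) -
        PowerSeries.coeff (D - k) (a' k)) := by
    intro k hk
    rw [hPdef, Polynomial.finsetSum_coeff, Finset.sum_eq_single k]
    · rw [Polynomial.coeff_C_mul_X_pow, if_pos rfl]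
    · intro j _ hj
      rw [Polynomial.coeff_C_mul_X_pow, if_neg (fun h => hj h.symm)]
    · intro hk2
      exact absurd (Finset.mem_range.2 (by omega)) hk2
  have hP0 : P ≠ 0 := by
    intro h0
    have h3 := hcoef m₁ (by omega)
    rw [h0, Polynomial.coeff_zero] at h3
    have h4 : D - m₁ = e₁ := by omega
    rw [h4] at h3
    rcases mul_eq_zero.1 h3.symm with h5 | h5
    · exact hc m₁ h5
    · exact h2 (sub_eq_zero.1 h5)
  have hdeg : P.natDegree ≤ D := by
    rw [hPdef]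
    apply Polynomial.natDegree_sum_le_of_forall_le
    intro k hk
    have := Finset.mem_range.1 hk
    exact (Polynomial.natDegree_C_mul_X_pow_le _ _).trans (by omega)
  have hz : P.coeff 0 = 0 := by
    rw [hcoef 0 (Nat.zero_le _), ha, ha', sub_self, mul_zero]
  have hroot : ∀ x ∈ insert (0 : ℚ) (s.image (fun n : ℤ => (n : ℚ))), P.eval x = 0 := by
    intro x hx
    rcases Finset.mem_insert.1 hx with rfl | hx
    · rw [← Polynomial.coeff_zero_eq_eval_zero, hz]
    · obtain ⟨n, hn, rfl⟩ := Finset.mem_image.1 hx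
      rw [← hP, Polynomial.eval_sub, ← evalP_coeff, ← evalP_coeff, evalP_S, evalP_S, (hs n hn).2,
        sub_self]
  have hcard : (insert (0 : ℚ) (s.image (fun n : ℤ => (n : ℚ)))).card = s.card + 1 := by
    rw [Finset.card_insert_of_notMem, Finset.card_image_of_injective _ Int.cast_injective]
    intro h0
    obtain ⟨n, hn, h5⟩ := Finset.mem_image.1 h0
    exact (hs n hn).1 (by exact_mod_cast h5)
  have h6 := Polynomial.card_roots' P
  have h7 : (insert (0 : ℚ) (s.image (fun n : ℤ => (n : ℚ)))) ⊆ P.roots.toFinset := by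
    intro x hx
    rw [Multiset.mem_toFinset, Polynomial.mem_roots hP0]
    exact hroot x hx
  have h8 := Finset.card_le_card h7
  rw [hcard] at h8
  have h9 := Multiset.toFinset_card_le P.roots
  omega

theorem infinite_eq (a a' : ℕ → PowerSeries ℚ) (ha : a 0 = 1) (ha' : a' 0 = 1)
    (h : Set.Infinite {n : ℤ | ohtsuki a n = ohtsuki a' n}) : a = a' := by
  by_contra hne
  obtain ⟨m, hm⟩ := Function.ne_iff.1 hne
  have hm2 : ∃ e, PowerSeries.coeff e (a m) ≠ PowerSeries.coeff e (a' m) := by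
    by_contra h2
    push Not at h2
    exact hm (PowerSeries.ext h2)
  obtain ⟨e, he⟩ := hm2
  have h3 : Set.Infinite ({n : ℤ | ohtsuki a n = ohtsuki a' n} \ {0}) :=
    h.sdiff (Set.finite_singleton 0)
  obtain ⟨s, hs, hc⟩ := h3.exists_subset_card_eq (m + e)
  have h4 := same_n a a' ha ha' m e he s (by
    intro n hn
    have h5 := hs (Finset.mem_coe.2 hn)
    exact ⟨fun h0 => h5.2 (by rw [h0]; rfl), h5.1⟩)
  omega

/-- the first two coefficients -/
lemma first (a : ℕ → PowerSeries ℚ) (α : ℕ → ℤ) (ha : a 0 = 1)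
    (h : ∀ m, PowerSeries.constantCoeff (a m) = (α m : ℚ)) (n : ℤ) :
    PowerSeries.coeff 1 (ohtsuki a n) = 6 * α 1 * n := by
  have h0 : (PowerSeries.coeff 1 (S a)).eval 0 = 0 := by
    have := ohtsuki_zero a ha
    rw [← evalP_S] at this
    have h2 := congrArg (PowerSeries.coeff 1) this
    rw [evalP_coeff] at h2
    simpa [PowerSeries.coeff_one] using h2
  have h1 := coeff_top_S a α h 1
  rw [coeff_top, mu_one] at h1
  have h2 := good_S a 1
  rw [← evalP_S, evalP_coeff]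
  rw [Polynomial.eval_eq_sum_range' (Nat.lt_succ_of_le h2)]
  rw [← Polynomial.coeff_zero_eq_eval_zero] at h0
  rw [Finset.sum_range_succ, Finset.sum_range_one, h0, h1]
  have hf : ((Nat.factorial 1 : ℕ) : ℚ) = 1 := by norm_num [Nat.factorial]
  rw [hf]
  push_cast
  ring

lemma mu_two (α : ℕ → ℤ) : mu α 2 = 3 * α 1 + 30 * α 2 := by
  simp [mu, Finset.sum_range_succ, bet, TT, tri]
  ring

lemma second (a : ℕ → PowerSeries ℚ) (α : ℕ → ℤ) (ha : a 0 = 1)
    (h : ∀ m, PowerSeries.constantCoeff (a m) = (α m : ℚ)) : ∃ l : ℚ, ∀ n : ℤ,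
    PowerSeries.coeff 2 (ohtsuki a n) = l * n + 6 * (α 1 + 10 * α 2) * n ^ 2 := by
  have h0 : (PowerSeries.coeff 2 (S a)).eval 0 = 0 := by
    have := ohtsuki_zero a ha
    rw [← evalP_S] at this
    have h2 := congrArg (PowerSeries.coeff 2) this
    rw [evalP_coeff] at h2
    simpa [PowerSeries.coeff_one] using h2
  have h1 := coeff_top_S a α h 2
  rw [coeff_top, mu_two] at h1
  have h2 := good_S a 2
  refine ⟨(PowerSeries.coeff 2 (S a)).coeff 1, fun n => ?_⟩
  rw [← evalP_S, evalP_coeff]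
  rw [Polynomial.eval_eq_sum_range' (Nat.lt_succ_of_le h2)]
  rw [← Polynomial.coeff_zero_eq_eval_zero] at h0
  rw [Finset.sum_range_succ, Finset.sum_range_succ, Finset.sum_range_one, h0, h1]
  have hf : ((Nat.factorial 2 : ℕ) : ℚ) = 2 := by norm_num [Nat.factorial]
  rw [hf]
  push_cast
  ring

theorem pairs (a a' : ℕ → PowerSeries ℚ) (α α' : ℕ → ℤ) (ha : a 0 = 1) (ha' : a' 0 = 1)
    (h : ∀ m, PowerSeries.constantCoeff (a m) = (α m : ℚ))
    (h' : ∀ m, PowerSeries.constantCoeff (a' m) = (α' m : ℚ)) (h1 : α 1 ≠ 0) (h1' : α' 1 ≠ 0)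
    (h2 : α 1 ^ 2 * (α' 1 + 10 * α' 2) ≠ α' 1 ^ 2 * (α 1 + 10 * α 2)) (n n' k k' : ℤ)
    (hn : n ≠ 0) (hk : k ≠ 0)
    (hnn : ∀ d ≤ 2, PowerSeries.coeff d (ohtsuki a n) = PowerSeries.coeff d (ohtsuki a' n'))
    (hkk : ∀ d ≤ 2, PowerSeries.coeff d (ohtsuki a k) = PowerSeries.coeff d (ohtsuki a' k')) :
    n = k ∧ n' = k' := by
  obtain ⟨l, hl⟩ := second a α ha h
  obtain ⟨l', hl'⟩ := second a' α' ha' h'
  have e1 := hnn 1 (by norm_num)
  have e2 := hnn 2 le_rfl
  have f1 := hkk 1 (by norm_num)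
  have f2 := hkk 2 le_rfl
  rw [first a α ha h, first a' α' ha' h'] at e1 f1
  rw [hl, hl'] at e2 f2
  have hα : ((α 1 : ℤ) : ℚ) ≠ 0 := by exact_mod_cast h1
  have hα' : ((α' 1 : ℤ) : ℚ) ≠ 0 := by exact_mod_cast h1'
  have hnQ : (n : ℚ) ≠ 0 := by exact_mod_cast hn
  have hkQ : (k : ℚ) ≠ 0 := by exact_mod_cast hk
  have hn' : (n' : ℚ) = α 1 * n / α' 1 := by
    rw [eq_div_iff hα']; linear_combination -e1 / 6
  have hk' : (k' : ℚ) = α 1 * k / α' 1 := by
    rw [eq_div_iff hα']; linear_combination -f1 / 6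
  rw [hn'] at e2
  rw [hk'] at f2
  field_simp at e2 f2
  have h3 : (α 1 : ℚ) ^ 2 * (α' 1 + 10 * α' 2) - α' 1 ^ 2 * (α 1 + 10 * α 2) ≠ 0 := by
    have h4 : ((α 1 ^ 2 * (α' 1 + 10 * α' 2) : ℤ) : ℚ) ≠ ((α' 1 ^ 2 * (α 1 + 10 * α 2) : ℤ) : ℚ) := by
      exact_mod_cast h2
    push_cast at h4
    exact sub_ne_zero.2 h4
  have h5 : ((n : ℚ) - k) * ((α 1 : ℚ) ^ 2 * (α' 1 + 10 * α' 2) - α' 1 ^ 2 * (α 1 + 10 * α 2)) = 0 := by
    linear_combination (-e2 + f2) / 6
  have h6 : (n : ℚ) = k := by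
    rcases mul_eq_zero.1 h5 with h7 | h7
    · exact sub_eq_zero.1 h7
    · exact absurd h7 h3
  have h8 : n = k := by exact_mod_cast h6
  refine ⟨h8, ?_⟩
  have h9 : (n' : ℚ) = k' := by rw [hn', hk', h6]
  exact_mod_cast h9

end Pool.Agent.V8H83.LM
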