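import Mathlib

/-!
# Divided differences
-/

set_option autoImplicit false

open Finset

namespace Pool.Agent.V8H83.LM

variable {F : Type*} [Field F]

/-- `dd y f i j` is the divided difference of `f` at the nodes `y j, …, y (j + i)`. -/
def dd (y f : ℕ → F) : ℕ → ℕ → F
  | 0, j => f j
  | i + 1, j => (dd y f i (j + 1) - dd y f i j) / (y (j + i + 1) - y j)

lemma dd_succ (y f : ℕ → F) (hy : Function.Injective y) (i j : ℕ) :
    (y (j + i + 1) - y j) * dd y f (i + 1) j = dd y f i (j + 1) - dd y f i j := by
  have h : y (j + i + 1) - y j ≠ 0 := by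
    rw [sub_ne_zero]
    intro h
    have := hy h
    omega
  rw [dd, mul_div_cancel₀ _ h]

/-- Leibniz rule -/
lemma dd_mul (y f g : ℕ → F) (hy : Function.Injective y) (i : ℕ) : ∀ j : ℕ,
    dd y (fun k => f k * g k) i j =
      ∑ t ∈ range (i + 1), dd y f t j * dd y g (i - t) (j + t) := by
  induction i with
  | zero => intro j; simp [dd]
  | succ i ih =>
    intro j
    have h : y (j + i + 1) - y j ≠ 0 := by
      rw [sub_ne_zero]
      intro h
      have := hy h
      omega
    apply mul_left_cancel₀ h
    rw [dd_succ y _ hy, ih, ih, ← Finset.sum_sub_distrib]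
    have e1 : ∀ t ∈ range (i + 1),
        dd y f t (j + 1) * dd y g (i - t) (j + 1 + t) - dd y f t j * dd y g (i - t) (j + t) =
        (y (j + t + 1) - y j) * (dd y f (t + 1) j * dd y g (i - t) (j + (t + 1))) +
          (y (j + i + 1) - y (j + t)) * (dd y f t j * dd y g (i + 1 - t) (j + t)) := by
      intro t ht
      have ht' : t ≤ i := by simpa [Nat.lt_succ_iff] using ht
      have a1 := dd_succ y f hy t j
      have a2 := dd_succ y g hy (i - t) (j + t)
      have e3 : j + t + (i - t) + 1 = j + i + 1 := by omega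
      have e4 : i - t + 1 = i + 1 - t := by omega
      rw [e3, e4] at a2
      have e5 : j + 1 + t = j + t + 1 := by omega
      have e6 : j + (t + 1) = j + t + 1 := by omega
      rw [e5, e6]
      linear_combination (-dd y g (i - t) (j + t + 1)) * a1 - dd y f t j * a2
    rw [Finset.sum_congr rfl e1, Finset.sum_add_distrib, Finset.mul_sum]
    have s1 : ∑ t ∈ range (i + 1),
        (y (j + t + 1) - y j) * (dd y f (t + 1) j * dd y g (i - t) (j + (t + 1))) =
        ∑ t ∈ range (i + 2), (y (j + t) - y j) * (dd y f t j * dd y g (i + 1 - t) (j + t)) := by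
      rw [Finset.sum_range_succ' _ (i + 1)]
      simp only [add_zero, sub_self, zero_mul]
      apply Finset.sum_congr rfl
      intro t _
      have e7 : i + 1 - (t + 1) = i - t := by omega
      rw [e7]
      rfl
    have s2 : ∑ t ∈ range (i + 1),
        (y (j + i + 1) - y (j + t)) * (dd y f t j * dd y g (i + 1 - t) (j + t)) =
        ∑ t ∈ range (i + 2), (y (j + i + 1) - y (j + t)) * (dd y f t j * dd y g (i + 1 - t) (j + t)) := by
      rw [Finset.sum_range_succ _ (i + 1)]
      have : y (j + i + 1) - y (j + (i + 1)) = 0 := by rw [← add_assoc, sub_self]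
      rw [this, zero_mul, add_zero]
    rw [s1, s2, ← Finset.sum_add_distrib]
    apply Finset.sum_congr rfl
    intro t _
    ring

/-- The divided difference at the nodes `y k`, `k ∈ S`, as a sum. -/
def E (y f : ℕ → F) (S : Finset ℕ) : F := ∑ k ∈ S, f k / ∏ l ∈ S.erase k, (y k - y l)

lemma E_insert (y f : ℕ → F) (hy : Function.Injective y) (S : Finset ℕ) (a b : ℕ) (ha : a ∉ S)
    (hb : b ∉ S) (hab : a ≠ b) :
    (y b - y a) * E y f (insert a (insert b S)) = E y f (insert b S) - E y f (insert a S) := by
  have hab' : y b - y a ≠ 0 := sub_ne_zero.2 (fun h => hab (hy h).symm)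
  have hba' : y a - y b ≠ 0 := sub_ne_zero.2 (fun h => hab (hy h))
  have ha2 : a ∉ insert b S := by
    rw [Finset.mem_insert]; push Not; exact ⟨hab, ha⟩
  unfold E
  rw [Finset.sum_insert ha2, Finset.sum_insert hb, Finset.sum_insert hb, Finset.sum_insert ha]
  have k1 : (insert a (insert b S)).erase a = insert b S := Finset.erase_insert ha2
  have k2 : (insert a (insert b S)).erase b = insert a S := by
    rw [Finset.insert_comm, Finset.erase_insert]
    rw [Finset.mem_insert]; push Not; exact ⟨hab.symm, hb⟩
  rw [k1, k2, Finset.erase_insert hb, Finset.erase_insert ha, Finset.prod_insert hb,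
    Finset.prod_insert ha]
  have hk : ∀ k ∈ S, (y b - y a) * (f k / ∏ l ∈ (insert a (insert b S)).erase k, (y k - y l)) =
      f k / ∏ l ∈ (insert b S).erase k, (y k - y l) -
        f k / ∏ l ∈ (insert a S).erase k, (y k - y l) := by
    intro k hkS
    have hka : k ≠ a := fun h => ha (h ▸ hkS)
    have hkb : k ≠ b := fun h => hb (h ▸ hkS)
    have hka' : y k - y a ≠ 0 := sub_ne_zero.2 (fun h => hka (hy h))
    have hkb' : y k - y b ≠ 0 := sub_ne_zero.2 (fun h => hkb (hy h))
    have r1 : (insert a S).erase k = insert a (S.erase k) := by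
      rw [Finset.erase_insert_of_ne hka.symm]
    have r2 : (insert b S).erase k = insert b (S.erase k) := by
      rw [Finset.erase_insert_of_ne hkb.symm]
    have r3 : (insert a (insert b S)).erase k = insert a (insert b (S.erase k)) := by
      rw [Finset.erase_insert_of_ne hka.symm, r2]
    have n1 : a ∉ S.erase k := fun h => ha (Finset.mem_of_mem_erase h)
    have n2 : b ∉ S.erase k := fun h => hb (Finset.mem_of_mem_erase h)
    have n3 : a ∉ insert b (S.erase k) := by
      rw [Finset.mem_insert]; push Not; exact ⟨hab, n1⟩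
    rw [r1, r2, r3, Finset.prod_insert n3, Finset.prod_insert n2, Finset.prod_insert n1]
    have hP : ∏ l ∈ S.erase k, (y k - y l) ≠ 0 := by
      rw [Finset.prod_ne_zero_iff]
      intro l hl
      exact sub_ne_zero.2 (fun h => (Finset.ne_of_mem_erase hl) (hy h).symm)
    field_simp
    ring
  rw [mul_add, mul_add, Finset.mul_sum, Finset.sum_congr rfl hk, Finset.sum_sub_distrib]
  have hPa : ∏ l ∈ S, (y a - y l) ≠ 0 := by
    rw [Finset.prod_ne_zero_iff]
    intro l hl
    exact sub_ne_zero.2 (fun h => ha ((hy h) ▸ hl))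
  have hPb : ∏ l ∈ S, (y b - y l) ≠ 0 := by
    rw [Finset.prod_ne_zero_iff]
    intro l hl
    exact sub_ne_zero.2 (fun h => hb ((hy h) ▸ hl))
  have t1 : (y b - y a) * (f a / ((y a - y b) * ∏ l ∈ S, (y a - y l))) =
      - (f a / ∏ l ∈ S, (y a - y l)) := by
    field_simp
    ring
  have t2 : (y b - y a) * (f b / ((y b - y a) * ∏ l ∈ S, (y b - y l))) =
      f b / ∏ l ∈ S, (y b - y l) := by
    field_simp
  rw [t1, t2]
  ring

lemma dd_eq_E (y f : ℕ → F) (hy : Function.Injective y) (i : ℕ) : ∀ j : ℕ,
    dd y f i j = E y f (Icc j (j + i)) := by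
  induction i with
  | zero => intro j; simp [dd, E]
  | succ i ih =>
    intro j
    have h : y (j + i + 1) - y j ≠ 0 := by
      rw [sub_ne_zero]
      intro h
      have := hy h
      omega
    apply mul_left_cancel₀ h
    rw [dd_succ y _ hy, ih, ih]
    have s1 : Icc j (j + (i + 1)) = insert j (insert (j + i + 1) (Icc (j + 1) (j + i))) := by
      ext x; simp only [Finset.mem_Icc, Finset.mem_insert]; omega
    have s2 : Icc (j + 1) (j + 1 + i) = insert (j + i + 1) (Icc (j + 1) (j + i)) := by
      ext x; simp only [Finset.mem_Icc, Finset.mem_insert]; omega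
    have s3 : Icc j (j + i) = insert j (Icc (j + 1) (j + i)) := by
      ext x; simp only [Finset.mem_Icc, Finset.mem_insert]; omega
    rw [s1, s2, s3, E_insert y f hy]
    · simp only [Finset.mem_Icc]; omega
    · simp only [Finset.mem_Icc]; omega
    · omega

lemma dd_const (y : ℕ → F) (c : F) (i : ℕ) : ∀ j : ℕ, dd y (fun _ => c) (i + 1) j = 0 := by
  induction i with
  | zero => intro j; simp [dd]
  | succ i ih => intro j; rw [dd, ih, ih, sub_self, zero_div]

lemma Icc_zero (m : ℕ) : Icc 0 (0 + m) = range (m + 1) := by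
  ext x; simp only [Finset.mem_Icc, Finset.mem_range]; omega

/-- the divided differences of powers of the node function -/
lemma E_pow_succ (y : ℕ → F) (hy : Function.Injective y) (m r : ℕ) :
    E y (fun k => y k ^ (r + 1)) (range (m + 2)) =
      E y (fun k => y k ^ r) (range (m + 1)) +
        y (m + 1) * E y (fun k => y k ^ r) (range (m + 2)) := by
  have h1 : E y (fun k => y k ^ (r + 1)) (range (m + 2)) -
      y (m + 1) * E y (fun k => y k ^ r) (range (m + 2)) =
      ∑ k ∈ range (m + 2), (y k - y (m + 1)) * (y k ^ r / ∏ l ∈ (range (m + 2)).erase k, (y k - y l)) := by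
    unfold E
    rw [Finset.mul_sum, ← Finset.sum_sub_distrib]
    apply Finset.sum_congr rfl
    intro k _
    simp only [pow_succ]
    ring
  have h2 : ∑ k ∈ range (m + 2), (y k - y (m + 1)) * (y k ^ r / ∏ l ∈ (range (m + 2)).erase k, (y k - y l))
      = E y (fun k => y k ^ r) (range (m + 1)) := by
    rw [Finset.sum_range_succ, sub_self, zero_mul, add_zero]
    unfold E
    apply Finset.sum_congr rfl
    intro k hk
    have hk' : k < m + 1 := Finset.mem_range.1 hk
    have hne : y k - y (m + 1) ≠ 0 := sub_ne_zero.2 (fun h => by have := hy h; omega)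
    have s : (range (m + 2)).erase k = insert (m + 1) ((range (m + 1)).erase k) := by
      ext x; simp only [Finset.mem_erase, Finset.mem_range, Finset.mem_insert]; omega
    rw [s, Finset.prod_insert (by simp)]
    have hP : ∏ l ∈ (range (m + 1)).erase k, (y k - y l) ≠ 0 := by
      rw [Finset.prod_ne_zero_iff]
      intro l hl
      exact sub_ne_zero.2 (fun h => (Finset.ne_of_mem_erase hl) (hy h).symm)
    field_simp
  rw [← h2, ← h1]
  ring

end Pool.Agent.V8H83.LM
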