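import Mathlib

/-!
# The Ohtsuki series of the homology spheres obtained by surgery on a knot

Definitions for `Pool.Agent.Results.MP_27a3bb_gt.ConnectedSums`, explained there.
-/

set_option autoImplicit false

open Finset

namespace Pool.Agent.V8H83.LM

/-- `q ^ m = exp (m h)`, a power series in `h`, as an element of the field of Laurent series. -/
noncomputable def q (m : ℤ) : LaurentSeries ℚ :=
  ((PowerSeries.rescale (m : ℚ) (PowerSeries.exp ℚ) : PowerSeries ℚ) : LaurentSeries ℚ)

/-- `(q; q)_n = (1 - q) (1 - q ^ 2) ⋯ (1 - q ^ n)`. -/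
noncomputable def poch (n : ℕ) : LaurentSeries ℚ := ∏ j ∈ range n, (1 - q (j + 1))

/-- The coefficients of the surgery element,
`u_n(p) = (-1)^n q^{n (n + 3) / 2} (q; q)_n
  ∑_{k ≤ n} (-1)^k q^{k (k + 1) p + k (k - 1) / 2} (1 - q^{2 k + 1}) / ((q; q)_{n+k+1} (q; q)_{n-k})`.
-/
noncomputable def u (n : ℕ) (p : ℤ) : LaurentSeries ℚ :=
  (-1) ^ n * q (n * (n + 3) / 2) * poch n *
    ∑ k ∈ range (n + 1), (-1) ^ k * q (k * (k + 1) * p + k * (k - 1) / 2) * (1 - q (2 * k + 1)) /
      (poch (n + k + 1) * poch (n - k))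

/-- The `m`-th term of the Ohtsuki series of the homology sphere obtained by surgery `-1 / n` on a
knot with the cyclotomic coefficients `a m`,
`a_m q^{-m (m + 2)} u_m(n) (q^{m+1}; q)_{m+1} / (1 - q)`. -/
noncomputable def term (a : ℕ → PowerSeries ℚ) (n : ℤ) (m : ℕ) : LaurentSeries ℚ :=
  (a m : LaurentSeries ℚ) * q (-(m * (m + 2))) * u m n *
    (∏ j ∈ range (m + 1), (1 - q (m + 1 + j))) / (1 - q 1)

/-- The Ohtsuki series of the homology sphere obtained by surgery `-1 / n` on a knot with the
cyclotomic coefficients `a m`, a power series in `h`; the `m`-th term is divisible by `h ^ m`, and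
so the terms with `m > d` do not contribute to the coefficient of `h ^ d`. -/
noncomputable def ohtsuki (a : ℕ → PowerSeries ℚ) (n : ℤ) : PowerSeries ℚ :=
  PowerSeries.mk fun d => (∑ m ∈ range (d + 1), term a n m).coeff d

/-- The `m`-th term of the Ohtsuki series of the homology sphere obtained by surgery `-1 / b`,
`-1 / c`, `-1 / n` on the Borromean rings,
`(-1)^m q^{-m (3 m + 7) / 2} u_m(b) u_m(c) u_m(n) (q^{m+1}; q)_{m+1} / (1 - q)`. -/
noncomputable def bterm (b c n : ℤ) (m : ℕ) : LaurentSeries ℚ :=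
  (-1) ^ m * q (-(m * (3 * m + 7) / 2)) * (u m b * u m c * u m n) *
    (∏ j ∈ range (m + 1), (1 - q (m + 1 + j))) / (1 - q 1)

/-- The Ohtsuki series of the homology sphere obtained by surgery `-1 / b`, `-1 / c`, `-1 / n` on
the Borromean rings. -/
noncomputable def borromean (b c n : ℤ) : PowerSeries ℚ :=
  PowerSeries.mk fun d => (∑ m ∈ range (d + 1), bterm b c n m).coeff d

end Pool.Agent.V8H83.LM
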