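import Pool.Agent.V8H83.LM.Q

set_option autoImplicit false

open Finset Polynomial

namespace Pool.Agent.V8H83.LM

/-! ### power series over the polynomials -/

/-- evaluation of the polynomial variable -/
noncomputable def evalP (n : ℤ) : PowerSeries ℚ[X] →+* PowerSeries ℚ :=
  PowerSeries.map (Polynomial.evalRingHom (n : ℚ))

/-- power series with constant coefficients -/
noncomputable def cst : PowerSeries ℚ →+* PowerSeries ℚ[X] := PowerSeries.map Polynomial.C

lemma evalP_cst (n : ℤ) (V : PowerSeries ℚ) : evalP n (cst V) = V := by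
  ext d
  simp [evalP, cst, PowerSeries.coeff_map]

/-- the coefficient of `h^d` has degree at most `d` -/
def Good (F : PowerSeries ℚ[X]) : Prop := ∀ d : ℕ, (PowerSeries.coeff d F).natDegree ≤ d

/-- the leading parts -/
noncomputable def top (F : PowerSeries ℚ[X]) : PowerSeries ℚ :=
  PowerSeries.mk fun d => (PowerSeries.coeff d F).coeff d

lemma coeff_top (F : PowerSeries ℚ[X]) (d : ℕ) :
    PowerSeries.coeff d (top F) = (PowerSeries.coeff d F).coeff d := by
  rw [top, PowerSeries.coeff_mk]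

lemma good_cst (V : PowerSeries ℚ) : Good (cst V) := by
  intro d
  rw [cst, PowerSeries.coeff_map, natDegree_C]
  exact Nat.zero_le _

lemma Good.mul {F G : PowerSeries ℚ[X]} (hF : Good F) (hG : Good G) : Good (F * G) := by
  intro d
  rw [PowerSeries.coeff_mul]
  apply natDegree_sum_le_of_forall_le
  intro x hx
  have h := Finset.HasAntidiagonal.mem_antidiagonal.1 hx
  calc (PowerSeries.coeff x.1 F * PowerSeries.coeff x.2 G).natDegree ≤
      (PowerSeries.coeff x.1 F).natDegree + (PowerSeries.coeff x.2 G).natDegree := natDegree_mul_le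
    _ ≤ x.1 + x.2 := Nat.add_le_add (hF _) (hG _)
    _ = d := h

lemma top_mul {F G : PowerSeries ℚ[X]} (hF : Good F) (hG : Good G) :
    top (F * G) = top F * top G := by
  ext d
  rw [coeff_top, PowerSeries.coeff_mul, PowerSeries.coeff_mul, Polynomial.finsetSum_coeff]
  apply Finset.sum_congr rfl
  intro x hx
  have h := Finset.HasAntidiagonal.mem_antidiagonal.1 hx
  rw [coeff_top, coeff_top, ← h]
  exact Polynomial.coeff_mul_add_eq_of_natDegree_le (hF _) (hG _)

lemma Good.sum {ι : Type} (s : Finset ι) (F : ι → PowerSeries ℚ[X]) (h : ∀ i ∈ s, Good (F i)) :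
    Good (∑ i ∈ s, F i) := by
  intro d
  rw [map_sum]
  exact natDegree_sum_le_of_forall_le _ _ fun i hi => h i hi d

lemma top_sum {ι : Type} (s : Finset ι) (F : ι → PowerSeries ℚ[X]) :
    top (∑ i ∈ s, F i) = ∑ i ∈ s, top (F i) := by
  ext d
  rw [coeff_top, map_sum, map_sum, Polynomial.finsetSum_coeff]
  exact Finset.sum_congr rfl fun i _ => (coeff_top _ _).symm

/-- `exp (l n h)`, with a variable `n` -/
noncomputable def expP (l : ℕ) : PowerSeries ℚ[X] :=
  PowerSeries.mk fun r => Polynomial.monomial r ((l : ℚ) ^ r / (r.factorial : ℚ))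

lemma good_exp (l : ℕ) : Good (expP l) := by
  intro d
  rw [expP, PowerSeries.coeff_mk]
  exact natDegree_monomial_le _

lemma coeff_top_exp (l d : ℕ) :
    PowerSeries.coeff d (top (expP l)) = (l : ℚ) ^ d / (d.factorial : ℚ) := by
  rw [coeff_top, expP, PowerSeries.coeff_mk, Polynomial.coeff_monomial_same]

lemma evalP_exp (n : ℤ) (l : ℕ) : evalP n (expP l) = e (l * n) := by
  ext d
  rw [evalP, PowerSeries.coeff_map, expP, PowerSeries.coeff_mk, e_coeff]
  simp only [coe_evalRingHom, eval_monomial]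
  push_cast
  rw [mul_pow]
  ring

/-! ### the polynomials in `n` -/

/-- the nodes `k (k + 1)` -/
def lam (k : ℕ) : ℚ := ((k * (k + 1) : ℕ) : ℚ)

lemma lam_inj : Function.Injective lam := by
  intro k l h
  by_contra hkl
  exact lam_ne hkl (sub_eq_zero.2 h)

lemma exists_w (m k : ℕ) (hk : k ∈ range (m + 1)) :
    R (hh ^ m * (poch m / ∏ l ∈ (range (m + 1)).erase k, (Xn k - Xn l)))
      ((-1) ^ m * (m.factorial : ℚ) / ∏ l ∈ (range (m + 1)).erase k, (lam k - lam l)) := by
  choose x hx hR using fun l => Xn_sub_R k l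
  obtain ⟨y, hy, hS⟩ := R_poch m
  have hc : ((range (m + 1)).erase k).card = m := by
    rw [Finset.card_erase_of_mem hk, Finset.card_range]; rfl
  have h1 : ∏ l ∈ (range (m + 1)).erase k, (Xn k - Xn l) =
      hh ^ (2 * m) * ∏ l ∈ (range (m + 1)).erase k, x l := by
    rw [Finset.prod_congr rfl fun l _ => hx l, Finset.prod_mul_distrib, Finset.prod_const, hc,
      ← pow_mul]
  have h2 : R (∏ l ∈ (range (m + 1)).erase k, x l)
      (∏ l ∈ (range (m + 1)).erase k, (lam k - lam l)) :=
    R_prod _ _ _ fun l _ => hR l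
  have h3 : ∏ l ∈ (range (m + 1)).erase k, (lam k - lam l) ≠ 0 := by
    rw [Finset.prod_ne_zero_iff]
    intro l hl
    exact lam_ne (Finset.ne_of_mem_erase hl).symm
  have h4 := hS.div h2 h3
  convert h4 using 1
  rw [h1, hy]
  have h5 := hh_ne
  have h6 := h2.ne h3
  field_simp
  ring

/-- `h^m (q;q)_m / ∏ (X_k - X_l)` -/
noncomputable def w (m k : ℕ) : PowerSeries ℚ :=
  if hk : k ∈ range (m + 1) then (exists_w m k hk).choose else 0

lemma w_spec (m k : ℕ) (hk : k ∈ range (m + 1)) :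
    hh ^ m * (poch m / ∏ l ∈ (range (m + 1)).erase k, (Xn k - Xn l)) = (w m k : LaurentSeries ℚ) ∧
    PowerSeries.constantCoeff (w m k) =
      (-1) ^ m * (m.factorial : ℚ) / ∏ l ∈ (range (m + 1)).erase k, (lam k - lam l) := by
  rw [w, dif_pos hk]
  exact (exists_w m k hk).choose_spec

/-- `h^m u_m(n)`, with a variable `n` -/
noncomputable def U (m : ℕ) : PowerSeries ℚ[X] :=
  ∑ k ∈ range (m + 1), cst (w m k) * expP (k * (k + 1))

lemma good_U (m : ℕ) : Good (U m) :=
  Good.sum _ _ fun k _ => (good_cst _).mul (good_exp _)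

lemma coeff_top_cst_mul (V : PowerSeries ℚ) (F : PowerSeries ℚ[X]) (hF : Good F) (d : ℕ) :
    PowerSeries.coeff d (top (cst V * F)) =
      PowerSeries.constantCoeff V * PowerSeries.coeff d (top F) := by
  have h : top (cst V) = PowerSeries.C (PowerSeries.constantCoeff V) := by
    ext d
    rw [coeff_top, cst, PowerSeries.coeff_map, Polynomial.coeff_C, PowerSeries.coeff_C]
    rcases d with _ | d
    · simp
    · simp
  rw [top_mul (good_cst _) hF, h, PowerSeries.coeff_C_mul]

lemma coeff_top_U (m d : ℕ) : PowerSeries.coeff d (top (U m)) =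
    (-1) ^ m * (m.factorial : ℚ) / (d.factorial : ℚ) * E lam (fun k => lam k ^ d) (range (m + 1)) := by
  rw [U, top_sum, map_sum, E, Finset.mul_sum]
  apply Finset.sum_congr rfl
  intro k hk
  rw [coeff_top_cst_mul _ _ (good_exp _), coeff_top_exp, (w_spec m k hk).2]
  simp only [lam]
  ring

lemma evalP_U (m : ℕ) (n : ℤ) : ((evalP n (U m) : PowerSeries ℚ) : LaurentSeries ℚ) =
    hh ^ m * u m n := by
  rw [u_eq, E, U, map_sum, map_sum, Finset.mul_sum, Finset.mul_sum]
  apply Finset.sum_congr rfl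
  intro k hk
  rw [map_mul, evalP_cst, evalP_exp, map_mul, ← (w_spec m k hk).1, fq, q_eq]
  push_cast
  ring

lemma ofPS_inj {V W : PowerSeries ℚ} (h : (V : LaurentSeries ℚ) = (W : LaurentSeries ℚ)) :
    V = W := HahnSeries.ofPowerSeries_injective h

lemma evalP_coeff (n : ℤ) (F : PowerSeries ℚ[X]) (d : ℕ) :
    PowerSeries.coeff d (evalP n F) = (PowerSeries.coeff d F).eval (n : ℚ) := by
  rw [evalP, PowerSeries.coeff_map, coe_evalRingHom]

lemma evalP_U_nat (m p : ℕ) : ∃ V : PowerSeries ℚ, evalP p (U m) = PowerSeries.X ^ m * V ∧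
    PowerSeries.constantCoeff V = (-(p : ℚ)) ^ m := by
  obtain ⟨V, hV, hc⟩ := R_u_nat m p
  refine ⟨V, ?_, hc⟩
  apply ofPS_inj
  rw [evalP_U, hV, hh, PowerSeries.coe_mul, PowerSeries.coe_pow]

lemma infinite_nat (P : ℚ → Prop) (h : ∀ p : ℕ, P p) : Set.Infinite {x : ℚ | P x} := by
  have h1 : Set.Infinite (Set.range ((↑) : ℕ → ℚ)) := Set.infinite_range_of_injective Nat.cast_injective
  refine h1.mono ?_
  rintro _ ⟨p, rfl⟩
  exact h p

lemma U_low (m r : ℕ) (hr : r < m) : PowerSeries.coeff r (U m) = 0 := by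
  apply Polynomial.eq_of_infinite_eval_eq
  apply infinite_nat
  intro p
  obtain ⟨V, hV, -⟩ := evalP_U_nat m p
  have h := congrArg (PowerSeries.coeff r) hV
  rw [evalP_coeff, PowerSeries.coeff_X_pow_mul', if_neg (by omega)] at h
  rw [eval_zero]
  simpa using h

lemma U_mid (m : ℕ) : PowerSeries.coeff m (U m) = (-X) ^ m := by
  apply Polynomial.eq_of_infinite_eval_eq
  apply infinite_nat
  intro p
  obtain ⟨V, hV, hc⟩ := evalP_U_nat m p
  have h := congrArg (PowerSeries.coeff m) hV
  rw [evalP_coeff, PowerSeries.coeff_X_pow_mul', if_pos le_rfl, Nat.sub_self,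
    PowerSeries.coeff_zero_eq_constantCoeff_apply, hc] at h
  rw [eval_pow, eval_neg, eval_X]
  simpa using h

/-- The coefficients of the surgery element are power series. -/
lemma R_u (m : ℕ) (n : ℤ) : R (u m n) ((-(n : ℚ)) ^ m) := by
  have h1 : PowerSeries.X ^ m ∣ evalP n (U m) := by
    rw [PowerSeries.X_pow_dvd_iff]
    intro r hr
    rw [evalP_coeff, U_low m r hr, eval_zero]
  obtain ⟨V, hV⟩ := h1
  refine ⟨V, ?_, ?_⟩
  · have h2 := evalP_U m n
    rw [hV, PowerSeries.coe_mul, PowerSeries.coe_pow] at h2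
    exact (mul_left_cancel₀ (pow_ne_zero m hh_ne) h2).symm
  · have h := congrArg (PowerSeries.coeff m) hV
    rw [evalP_coeff, U_mid, PowerSeries.coeff_X_pow_mul', if_pos le_rfl, Nat.sub_self,
      PowerSeries.coeff_zero_eq_constantCoeff_apply, eval_pow, eval_neg, eval_X] at h
    exact h.symm

/-- the factor `(q^{m+1}; q)_{m+1} / (1 - q)` -/
lemma exists_b (m : ℕ) : ∃ x : LaurentSeries ℚ,
    (∏ j ∈ range (m + 1), (1 - q (m + 1 + j))) / (1 - q 1) = hh ^ m * x ∧
    R x ((-1) ^ m * ((2 * m + 1).factorial : ℚ) / (m.factorial : ℚ)) := by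
  choose x hx hR using fun j : ℕ => R_one_sub_q ((m : ℤ) + 1 + j)
  obtain ⟨z, hz, hS⟩ := R_one_sub_q 1
  have h1 : ∏ j ∈ range (m + 1), (1 - q ((m : ℤ) + 1 + j)) =
      hh ^ (m + 1) * ∏ j ∈ range (m + 1), x j := by
    rw [Finset.prod_congr rfl fun j _ => hx j, Finset.prod_mul_distrib, Finset.prod_const,
      Finset.card_range]
  have h2 : R (∏ j ∈ range (m + 1), x j) (∏ j ∈ range (m + 1), (-(((m : ℤ) + 1 + j : ℤ) : ℚ))) :=
    R_prod _ _ _ fun j _ => hR j
  have h3 : (∏ j ∈ range (m + 1), (-(((m : ℤ) + 1 + j : ℤ) : ℚ))) =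
      (-1) ^ (m + 1) * (((2 * m + 1).factorial : ℚ) / (m.factorial : ℚ)) := by
    have h4 := Nat.factorial_mul_ascFactorial m (m + 1)
    rw [Nat.ascFactorial_eq_prod_range, show m + (m + 1) = 2 * m + 1 by ring] at h4
    have h5 : ((2 * m + 1).factorial : ℚ) = (m.factorial : ℚ) *
        ∏ j ∈ range (m + 1), ((m : ℚ) + 1 + j) := by
      rw [← h4]; push_cast; rfl
    have h6 : (m.factorial : ℚ) ≠ 0 := by exact_mod_cast m.factorial_ne_zero
    rw [h5, mul_div_cancel_left₀ _ h6, ← Finset.card_range (m + 1), ← Finset.prod_const,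
      Finset.card_range, ← Finset.prod_mul_distrib]
    apply Finset.prod_congr rfl
    intro j _
    push_cast
    ring
  rw [h3] at h2
  have hz1 : z ≠ 0 := hS.ne (by norm_num)
  refine ⟨(∏ j ∈ range (m + 1), x j) / z, ?_, ?_⟩
  · rw [h1, hz]
    have := hh_ne
    field_simp
    ring
  · have := h2.div hS (by norm_num)
    convert this using 1
    push_cast
    ring

lemma exists_bb (V : PowerSeries ℚ) (m : ℕ) : ∃ W : PowerSeries ℚ,
    (V : LaurentSeries ℚ) * q (-(m * (m + 2))) *
      ((∏ j ∈ range (m + 1), (1 - q (m + 1 + j))) / (1 - q 1)) =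
      hh ^ m * (W : LaurentSeries ℚ) ∧
    PowerSeries.constantCoeff W = PowerSeries.constantCoeff V *
      ((-1) ^ m * ((2 * m + 1).factorial : ℚ) / (m.factorial : ℚ)) := by
  obtain ⟨x, hx, hR⟩ := exists_b m
  have h1 : R (V : LaurentSeries ℚ) (PowerSeries.constantCoeff V) := ⟨V, rfl, rfl⟩
  obtain ⟨W, hW, hc⟩ := (h1.mul (R_q (-(m * (m + 2))))).mul hR
  refine ⟨W, ?_, ?_⟩
  · rw [hx, ← hW]; ring
  · rw [hc, mul_one]

/-- the part of the term which does not depend on `n` -/
noncomputable def bb (V : PowerSeries ℚ) (m : ℕ) : PowerSeries ℚ := (exists_bb V m).choose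

/-- the `m`-th term, with a variable `n` -/
noncomputable def T (a : ℕ → PowerSeries ℚ) (m : ℕ) : PowerSeries ℚ[X] := cst (bb (a m) m) * U m

lemma good_T (a : ℕ → PowerSeries ℚ) (m : ℕ) : Good (T a m) := (good_cst _).mul (good_U m)

lemma evalP_T (a : ℕ → PowerSeries ℚ) (m : ℕ) (n : ℤ) :
    ((evalP n (T a m) : PowerSeries ℚ) : LaurentSeries ℚ) = term a n m := by
  have h := (exists_bb (a m) m).choose_spec.1
  rw [T, map_mul, evalP_cst, PowerSeries.coe_mul, evalP_U, term]
  change ((exists_bb (a m) m).choose : LaurentSeries ℚ) * _ = _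
  linear_combination (-u m n) * h

lemma T_low (a : ℕ → PowerSeries ℚ) (m r : ℕ) (hr : r < m) : PowerSeries.coeff r (T a m) = 0 := by
  rw [T, PowerSeries.coeff_mul]
  apply Finset.sum_eq_zero
  intro x hx
  have h := Finset.HasAntidiagonal.mem_antidiagonal.1 hx
  rw [U_low m x.2 (by omega), mul_zero]

lemma coeff_top_T (a : ℕ → PowerSeries ℚ) (m d : ℕ) : PowerSeries.coeff d (top (T a m)) =
    PowerSeries.constantCoeff (a m) * ((2 * m + 1).factorial : ℚ) / (d.factorial : ℚ) *
      E lam (fun k => lam k ^ d) (range (m + 1)) := by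
  have h := (exists_bb (a m) m).choose_spec.2
  rw [T, coeff_top_cst_mul _ _ (good_U m), coeff_top_U]
  change PowerSeries.constantCoeff (exists_bb (a m) m).choose * _ = _
  rw [h]
  have h1 : (-1 : ℚ) ^ m * (-1) ^ m = 1 := by
    rw [← mul_pow]; simp
  have h2 : (m.factorial : ℚ) ≠ 0 := by exact_mod_cast m.factorial_ne_zero
  have h3 : (d.factorial : ℚ) ≠ 0 := by exact_mod_cast d.factorial_ne_zero
  field_simp
  linear_combination (PowerSeries.constantCoeff (a m) *
    E lam (fun k => lam k ^ d) (range (m + 1))) * h1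

/-- the Ohtsuki series, with a variable `n` -/
noncomputable def S (a : ℕ → PowerSeries ℚ) : PowerSeries ℚ[X] :=
  PowerSeries.mk fun d => ∑ m ∈ range (d + 1), PowerSeries.coeff d (T a m)

lemma good_S (a : ℕ → PowerSeries ℚ) : Good (S a) := by
  intro d
  rw [S, PowerSeries.coeff_mk]
  exact natDegree_sum_le_of_forall_le _ _ fun m _ => good_T a m d

lemma coe_coeff (V : PowerSeries ℚ) (d : ℕ) :
    (V : LaurentSeries ℚ).coeff (d : ℤ) = PowerSeries.coeff d V := by
  rw [PowerSeries.coeff_coe, if_neg (by omega), Int.natAbs_natCast]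

lemma evalP_S (a : ℕ → PowerSeries ℚ) (n : ℤ) : evalP n (S a) = ohtsuki a n := by
  ext d
  rw [evalP_coeff, S, PowerSeries.coeff_mk, ohtsuki, PowerSeries.coeff_mk,
    Polynomial.eval_finsetSum]
  rw [HahnSeries.coeff_sum]
  apply Finset.sum_congr rfl
  intro m _
  rw [← evalP_T, coe_coeff, evalP_coeff]

end Pool.Agent.V8H83.LM
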