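import Pool.Agent.V8H83.LM.LinkDefs
import Pool.Agent.V8H83.LM.U

set_option autoImplicit false

open Finset

namespace Pool.Agent.V8H83.LM

lemma R_v (k : ℤ) : R (v k) 1 := by
  refine ⟨_, rfl, ?_⟩
  rw [← PowerSeries.coeff_zero_eq_constantCoeff_apply, PowerSeries.coeff_rescale,
    PowerSeries.coeff_exp]
  simp

lemma R_fac (m : ℕ) (n : ℤ) :
    R ((-1) ^ m * v (-(m * (m + 3) / 2)) * u m n) ((n : ℚ) ^ m) := by
  have h := ((R_one.neg.pow m).mul (R_v (-(m * (m + 3) / 2)))).mul (R_u m n)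
  convert h using 1
  rw [mul_one, ← mul_pow]
  congr 1
  ring

lemma R_prod' {r : ℕ} (x : Fin r → LaurentSeries ℚ) (c : Fin r → ℚ) (s : Finset (Fin r))
    (h : ∀ i, R (x i) (c i)) : R (∏ i ∈ s, x i) (∏ i ∈ s, c i) := by
  classical
  induction s using Finset.induction_on with
  | empty => simpa using R_one
  | insert i s hi ih =>
    rw [Finset.prod_insert hi, Finset.prod_insert hi]
    exact (h i).mul ih

lemma exists_PV {r : ℕ} (n : Fin r → ℤ) (m : Fin r → ℕ) : ∃ V : PowerSeries ℚ,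
    ∏ i, ((-1) ^ m i * v (-(m i * (m i + 3) / 2)) * u (m i) (n i)) = (V : LaurentSeries ℚ) ∧
    PowerSeries.constantCoeff V = ∏ i, (n i : ℚ) ^ m i :=
  R_prod' _ _ _ fun i => R_fac (m i) (n i)

noncomputable def PV {r : ℕ} (n : Fin r → ℤ) (m : Fin r → ℕ) : PowerSeries ℚ :=
  (exists_PV n m).choose

lemma PV_eq {r : ℕ} (n : Fin r → ℤ) (m : Fin r → ℕ) :
    ∏ i, ((-1) ^ m i * v (-(m i * (m i + 3) / 2)) * u (m i) (n i)) =
      (PV n m : LaurentSeries ℚ) := (exists_PV n m).choose_spec.1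

lemma PV_const {r : ℕ} (n : Fin r → ℤ) (m : Fin r → ℕ) :
    PowerSeries.constantCoeff (PV n m) = ∏ i, (n i : ℚ) ^ m i := (exists_PV n m).choose_spec.2

lemma lterm_eq {r : ℕ} (b : (Fin r → ℕ) → PowerSeries ℚ) (n : Fin r → ℤ) (m : Fin r → ℕ) :
    lterm b n m = ((b m * PV n m : PowerSeries ℚ) : LaurentSeries ℚ) := by
  rw [lterm, PV_eq, PowerSeries.coe_mul]

lemma lohtsuki_coeff {r : ℕ} (b : (Fin r → ℕ) → PowerSeries ℚ) (n : Fin r → ℤ) (d : ℕ) :
    PowerSeries.coeff d (lohtsuki b n) =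
      ∑ m ∈ Fintype.piFinset (fun _ : Fin r => range (d + 1)),
        PowerSeries.coeff d (b m * PV n m) := by
  rw [lohtsuki, PowerSeries.coeff_mk, HahnSeries.coeff_sum]
  apply Finset.sum_congr rfl
  intro m _
  rw [lterm_eq, coe_coeff]

/-- the lowest coefficient of the difference -/
noncomputable def FF {r : ℕ} (b b' : (Fin r → ℕ) → PowerSeries ℚ) (D : ℕ) :
    MvPolynomial (Fin r) ℚ :=
  ∑ m ∈ Fintype.piFinset (fun _ : Fin r => range (D + 1)),
    MvPolynomial.monomial (Finsupp.equivFunOnFinite.symm m)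
      (PowerSeries.coeff D (b m) - PowerSeries.coeff D (b' m))

lemma coeff_mul_low (F G : PowerSeries ℚ) (D : ℕ) (h : ∀ d < D, PowerSeries.coeff d F = 0) :
    PowerSeries.coeff D (F * G) = PowerSeries.coeff D F * PowerSeries.constantCoeff G := by
  rw [PowerSeries.coeff_mul, Finset.Nat.sum_antidiagonal_eq_sum_range_succ
    (fun i j => PowerSeries.coeff i F * PowerSeries.coeff j G) D, Finset.sum_range_succ]
  rw [Finset.sum_eq_zero, zero_add, Nat.sub_self, PowerSeries.coeff_zero_eq_constantCoeff_apply]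
  intro i hi
  rw [h i (Finset.mem_range.1 hi), zero_mul]

lemma eval_FF {r : ℕ} (b b' : (Fin r → ℕ) → PowerSeries ℚ) (D : ℕ)
    (hlow : ∀ m, ∀ d < D, PowerSeries.coeff d (b m) = PowerSeries.coeff d (b' m))
    (n : Fin r → ℤ) :
    MvPolynomial.eval (fun i => (n i : ℚ)) (FF b b' D) =
      PowerSeries.coeff D (lohtsuki b n) - PowerSeries.coeff D (lohtsuki b' n) := by
  rw [lohtsuki_coeff, lohtsuki_coeff, ← Finset.sum_sub_distrib, FF, map_sum]
  apply Finset.sum_congr rfl
  intro m _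
  have h1 : PowerSeries.coeff D (b m * PV n m) - PowerSeries.coeff D (b' m * PV n m) =
      PowerSeries.coeff D ((b m - b' m) * PV n m) := by rw [sub_mul, map_sub]
  rw [h1, coeff_mul_low _ _ D, PV_const, MvPolynomial.eval_monomial, map_sub]
  · congr 1
    rw [Finsupp.prod_fintype _ _ (fun i => pow_zero _)]
    rfl
  · intro d hd
    rw [map_sub, hlow m d hd, sub_self]

lemma coeff_FF {r : ℕ} (b b' : (Fin r → ℕ) → PowerSeries ℚ) (D : ℕ) (m : Fin r → ℕ)
    (hm : ∀ i, m i ≤ D) :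
    MvPolynomial.coeff (Finsupp.equivFunOnFinite.symm m) (FF b b' D) =
      PowerSeries.coeff D (b m) - PowerSeries.coeff D (b' m) := by
  rw [FF, MvPolynomial.coeff_sum, Finset.sum_eq_single m]
  · rw [MvPolynomial.coeff_monomial, if_pos rfl]
  · intro k _ hk
    rw [MvPolynomial.coeff_monomial, if_neg]
    intro h
    exact hk (Finsupp.equivFunOnFinite.symm.injective h)
  · intro h
    exfalso
    apply h
    rw [Fintype.mem_piFinset]
    intro i
    rw [Finset.mem_range]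
    have := hm i
    omega

lemma degreeOf_FF {r : ℕ} (b b' : (Fin r → ℕ) → PowerSeries ℚ) (D : ℕ) (i : Fin r) :
    (FF b b' D).degreeOf i ≤ D := by
  classical
  rw [FF]
  apply (MvPolynomial.degreeOf_sum_le i _ _).trans
  apply Finset.sup_le
  intro m hm
  apply MvPolynomial.degreeOf_le_iff.2
  intro k hk
  have h1 := MvPolynomial.support_monomial_subset hk
  rw [Finset.mem_singleton] at h1
  rw [h1]
  have h2 := Fintype.mem_piFinset.1 hm i
  rw [Finset.mem_range] at h2
  change m i ≤ D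
  omega

theorem exists_poly {r : ℕ} (b b' : (Fin r → ℕ) → PowerSeries ℚ)
    (hb : ∀ m i, PowerSeries.X ^ m i ∣ b m) (hb' : ∀ m i, PowerSeries.X ^ m i ∣ b' m)
    (m₀ : Fin r → ℕ) (D : ℕ) (h : PowerSeries.coeff D (b m₀) ≠ PowerSeries.coeff D (b' m₀)) :
    ∃ F : MvPolynomial (Fin r) ℚ, F ≠ 0 ∧ (∀ i, F.degreeOf i ≤ D) ∧
      ∀ n : Fin r → ℤ, lohtsuki b n = lohtsuki b' n →
        MvPolynomial.eval (fun i => (n i : ℚ)) F = 0 := by
  classical
  have hex : ∃ D : ℕ, ∃ m : Fin r → ℕ, PowerSeries.coeff D (b m) ≠ PowerSeries.coeff D (b' m) :=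
    ⟨D, m₀, h⟩
  set D' := Nat.find hex with hD'
  have hle : D' ≤ D := Nat.find_le ⟨m₀, h⟩
  obtain ⟨m, hm⟩ := Nat.find_spec hex
  rw [← hD'] at hm
  have hlow : ∀ m, ∀ d < D', PowerSeries.coeff d (b m) = PowerSeries.coeff d (b' m) := by
    intro k d hd
    by_contra hk
    exact Nat.find_min hex hd ⟨k, hk⟩
  refine ⟨FF b b' D', ?_, fun i => (degreeOf_FF b b' D' i).trans hle, ?_⟩
  · intro h0
    have hmi : ∀ i, m i ≤ D' := by
      intro i
      by_contra hi
      apply hm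
      rw [PowerSeries.X_pow_dvd_iff.1 (hb m i) D' (by omega),
        PowerSeries.X_pow_dvd_iff.1 (hb' m i) D' (by omega)]
    have h1 := coeff_FF b b' D' m hmi
    rw [h0, MvPolynomial.coeff_zero] at h1
    exact hm (sub_eq_zero.1 h1.symm)
  · intro n hn
    rw [eval_FF b b' D' hlow, hn, sub_self]

theorem zippel {r : ℕ} (b b' : (Fin r → ℕ) → PowerSeries ℚ)
    (hb : ∀ m i, PowerSeries.X ^ m i ∣ b m) (hb' : ∀ m i, PowerSeries.X ^ m i ∣ b' m)
    (m₀ : Fin r → ℕ) (D : ℕ) (h : PowerSeries.coeff D (b m₀) ≠ PowerSeries.coeff D (b' m₀))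
    (s : Finset (Fin r → ℤ)) (S : Finset ℤ) (hs : ∀ n ∈ s, (∀ i, n i ∈ S) ∧ lohtsuki b n = lohtsuki b' n) :
    s.card * S.card ≤ r * D * S.card ^ r := by
  classical
  obtain ⟨F, hF, hd, hz⟩ := exists_poly b b' hb hb' m₀ D h
  rcases S.eq_empty_or_nonempty with rfl | hS
  · simp
  set T : Finset ℚ := S.image (fun k : ℤ => (k : ℚ)) with hT
  have hTc : T.card = S.card := Finset.card_image_of_injective _ Int.cast_injective
  have h1 := MvPolynomial.schwartz_zippel_sum_degreeOf hF (fun _ => T)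
  have h2 : s.card ≤ ({x ∈ Fintype.piFinset (fun _ : Fin r => T) | MvPolynomial.eval x F = 0}).card := by
    rw [← Finset.card_image_of_injective s (f := fun (n : Fin r → ℤ) (i : Fin r) => (n i : ℚ))]
    · apply Finset.card_le_card
      intro x hx
      obtain ⟨n, hn, rfl⟩ := Finset.mem_image.1 hx
      rw [Finset.mem_filter, Fintype.mem_piFinset]
      obtain ⟨h3, h4⟩ := hs n hn
      refine ⟨fun i => ?_, hz n h4⟩
      rw [hT, Finset.mem_image]
      exact ⟨n i, h3 i, rfl⟩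
    · intro x y hxy
      funext i
      exact Int.cast_injective (congrFun hxy i)
  have hpos : (0 : ℚ≥0) < (S.card : ℚ≥0) := by exact_mod_cast Finset.card_pos.2 hS
  have h5 : (∑ i, (F.degreeOf i / T.card : ℚ≥0)) ≤ r * D / S.card := by
    rw [hTc]
    calc (∑ i, (F.degreeOf i / S.card : ℚ≥0)) ≤ ∑ _i : Fin r, (D / S.card : ℚ≥0) := by
          apply Finset.sum_le_sum
          intro i _
          gcongr
          exact_mod_cast hd i
      _ = r * D / S.card := by
          rw [Finset.sum_const, Finset.card_univ, Fintype.card_fin, nsmul_eq_mul, mul_div_assoc]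
  have h6 := h1.trans h5
  rw [Finset.prod_const, Finset.card_univ, Fintype.card_fin, hTc, div_le_div_iff₀ (by positivity) hpos] at h6
  have h7 : (s.card : ℚ≥0) * S.card ≤ r * D * S.card ^ r := by
    refine le_trans ?_ h6
    gcongr
  exact_mod_cast h7

end Pool.Agent.V8H83.LM
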