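import Pool.Agent.V8H83.LM.Defs

/-!
# The Ohtsuki series of the homology spheres obtained by surgery on a link

Definitions for `Pool.Agent.Results.MP_27a3bb_gt.DifferentKnots`, explained there.
-/

set_option autoImplicit false

open Finset

namespace Pool.Agent.V8H83.LM

/-- `v ^ k = exp (k h / 2)`, a power series in `h`, as an element of the field of Laurent series;
`v ^ 2 = q`. -/
noncomputable def v (k : ℤ) : LaurentSeries ℚ :=
  ((PowerSeries.rescale ((k : ℚ) / 2) (PowerSeries.exp ℚ) : PowerSeries ℚ) : LaurentSeries ℚ)

/-- The term with the index `m = (m_1, …, m_r)` of the Ohtsuki series of the homology sphere obtained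
by the surgeries `-1 / n_1, …, -1 / n_r` on an algebraically split link with `r` components and the
coefficients `b`,
`b_m ∏_i (-1)^{m_i} q^{-m_i (m_i + 3) / 4} u_{m_i}(n_i)`. -/
noncomputable def lterm {r : ℕ} (b : (Fin r → ℕ) → PowerSeries ℚ) (n : Fin r → ℤ)
    (m : Fin r → ℕ) : LaurentSeries ℚ :=
  (b m : LaurentSeries ℚ) * ∏ i, ((-1) ^ m i * v (-(m i * (m i + 3) / 2)) * u (m i) (n i))

/-- The Ohtsuki series of the homology sphere obtained by the surgeries `-1 / n_1, …, -1 / n_r` on an
algebraically split link with `r` components and the coefficients `b`; if `b m` is divisible by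
`h ^ m_i` for all `i`, the terms with some `m_i > d` do not contribute to the coefficient of
`h ^ d`. -/
noncomputable def lohtsuki {r : ℕ} (b : (Fin r → ℕ) → PowerSeries ℚ) (n : Fin r → ℤ) :
    PowerSeries ℚ :=
  PowerSeries.mk fun d =>
    (∑ m ∈ Fintype.piFinset (fun _ => range (d + 1)), lterm b n m).coeff d

end Pool.Agent.V8H83.LM
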