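import Pool.Agent.V8H83.LM.Dd

set_option autoImplicit false

open Finset

namespace Pool.Agent.V8H83.LM

/-! ### the numbers -/

def tri : ℕ → ℤ
  | 0 => 0
  | m + 1 => tri m + (m + 1)

def TT : ℕ → ℕ → ℤ
  | 0, 0 => 1
  | 0, _ + 1 => 0
  | _ + 1, 0 => 0
  | d + 1, m + 1 => TT d m + tri (m + 1) * TT d (m + 1)

/-- `(2 m + 1)! / 2^m` -/
def bet : ℕ → ℤ
  | 0 => 1
  | m + 1 => bet m * ((2 * m + 3) * (m + 1))

def mu (α : ℕ → ℤ) (d : ℕ) : ℤ := ∑ m ∈ range (d + 1), α m * bet m * TT d m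

lemma tri_eq (m : ℕ) : 2 * tri m = m * (m + 1) := by
  induction m with
  | zero => simp [tri]
  | succ m ih => rw [tri, mul_add, ih]; push_cast; ring

lemma bet_eq (m : ℕ) : ((2 * m + 1).factorial : ℤ) = bet m * 2 ^ m := by
  induction m with
  | zero => simp [bet]
  | succ m ih =>
    rw [show 2 * (m + 1) + 1 = (2 * m + 1) + 1 + 1 by ring, Nat.factorial_succ, Nat.factorial_succ]
    push_cast
    rw [ih, bet]
    push_cast
    ring

lemma TT_zero (d : ℕ) : ∀ m : ℕ, d < m → TT d m = 0 := by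
  induction d with
  | zero =>
    intro m hm
    obtain ⟨n, rfl⟩ : ∃ n, m = n + 1 := ⟨m - 1, by omega⟩
    rfl
  | succ d ih =>
    intro m hm
    obtain ⟨n, rfl⟩ : ∃ n, m = n + 1 := ⟨m - 1, by omega⟩
    rw [TT, ih n (by omega), ih (n + 1) (by omega)]
    ring

lemma TT_one (d : ℕ) : TT (d + 1) 1 = 1 := by
  induction d with
  | zero => simp [TT, tri]
  | succ d ih =>
    rw [TT, ih]
    simp [TT, tri]

lemma TT_two (d : ℕ) : 2 * TT (d + 1) 2 = 3 ^ d - 1 := by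
  induction d with
  | zero => simp [TT, tri]
  | succ d ih =>
    rw [TT, TT_one]
    have : tri (1 + 1) = 3 := by simp [tri]
    rw [this, pow_succ]
    linear_combination 3 * ih

lemma TT_three (d : ℕ) : 90 * TT (d + 1) 3 = 6 ^ (d + 1) - 5 * 3 ^ (d + 1) + 9 := by
  induction d with
  | zero => simp [TT, tri]
  | succ d ih =>
    rw [TT]
    have : tri (2 + 1) = 6 := by simp [tri]
    rw [this]
    have h := TT_two d
    change 90 * (TT (d + 1) 2 + 6 * TT (d + 1) 3) = _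
    rw [pow_succ, pow_succ 3 (d + 1)]
    rw [pow_succ 3 d] at ih ⊢
    linear_combination 6 * ih + 45 * h

lemma mu_split (α : ℕ → ℤ) (d k : ℕ) : mu α d = ∑ m ∈ range k, α m * bet m * TT d m +
    ∑ m ∈ range (d + 1), α (k + m) * bet (k + m) * TT d (k + m) := by
  have e1 : ∑ m ∈ range (k + (d + 1)), α m * bet m * TT d m = _ :=
    Finset.sum_range_add (fun m => α m * bet m * TT d m) k (d + 1)
  have e2 : ∑ m ∈ range ((d + 1) + k), α m * bet m * TT d m = _ :=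
    Finset.sum_range_add (fun m => α m * bet m * TT d m) (d + 1) k
  have e3 : ∑ m ∈ range k, α (d + 1 + m) * bet (d + 1 + m) * TT d (d + 1 + m) = 0 := by
    apply Finset.sum_eq_zero
    intro m _
    rw [TT_zero d _ (by omega), mul_zero]
  rw [← e1, mu, add_comm k (d + 1), e2, e3, add_zero]

lemma bet_dvd3 (m : ℕ) : (3 : ℤ) ∣ bet (1 + m) := by
  induction m with
  | zero => simp [bet]
  | succ m ih => rw [← add_assoc, bet]; exact Dvd.dvd.mul_right ih _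

lemma bet_dvd9 (m : ℕ) : (9 : ℤ) ∣ bet (3 + m) := by
  induction m with
  | zero => simp [bet]
  | succ m ih => rw [← add_assoc, bet]; exact Dvd.dvd.mul_right ih _

lemma bet_dvd8 (m : ℕ) : (8 : ℤ) ∣ bet (4 + m) := by
  induction m with
  | zero => simp [bet]
  | succ m ih => rw [← add_assoc, bet]; exact Dvd.dvd.mul_right ih _

lemma mu_zero (α : ℕ → ℤ) (h : α 0 = 1) : mu α 0 = 1 := by
  simp [mu, h, bet, TT]

lemma mu_one (α : ℕ → ℤ) : mu α 1 = 3 * α 1 := by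
  simp [mu, Finset.sum_range_succ, bet, TT, tri]
  ring

/-- the sequence `K` with `μ (d + 1) = ∑ C(d, e) K e μ (d - e)` -/
def kap (μ : ℕ → ℤ) : ℕ → ℤ
  | d => μ (d + 1) - ∑ e : Fin d, (d.choose e : ℤ) * kap μ e * μ (d - e)
termination_by d => d
decreasing_by exact e.2

lemma kap_eq (μ : ℕ → ℤ) (d : ℕ) :
    kap μ d = μ (d + 1) - ∑ e ∈ range d, (d.choose e : ℤ) * kap μ e * μ (d - e) := by
  rw [kap, Fin.sum_univ_eq_sum_range (fun e => (d.choose e : ℤ) * kap μ e * μ (d - e)) d]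

lemma kap_rec (μ : ℕ → ℤ) (h0 : μ 0 = 1) (d : ℕ) :
    μ (d + 1) = ∑ e ∈ range (d + 1), (d.choose e : ℤ) * kap μ e * μ (d - e) := by
  rw [Finset.sum_range_succ, kap_eq μ d, Nat.choose_self, Nat.sub_self, h0]
  push_cast
  ring

lemma kap_dvd (μ : ℕ → ℤ) (g : ℤ) (h : ∀ j, g ∣ μ (j + 1)) (d : ℕ) : g ∣ kap μ d := by
  induction d using Nat.strong_induction_on with
  | _ d ih =>
    rw [kap_eq]
    apply dvd_sub (h d)
    apply Finset.dvd_sum
    intro e he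
    exact Dvd.dvd.mul_right (Dvd.dvd.mul_left (ih e (Finset.mem_range.1 he)) _) _

lemma kap_dvd2 (μ : ℕ → ℤ) (g : ℤ) (h : ∀ j, g ∣ μ (j + 1)) (d : ℕ) :
    g * g ∣ kap μ d - μ (d + 1) := by
  rw [kap_eq]
  have : μ (d + 1) - ∑ e ∈ range d, (d.choose e : ℤ) * kap μ e * μ (d - e) - μ (d + 1) =
      -∑ e ∈ range d, (d.choose e : ℤ) * kap μ e * μ (d - e) := by ring
  rw [this, dvd_neg]
  apply Finset.dvd_sum
  intro e he
  have he' := Finset.mem_range.1 he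
  obtain ⟨j, hj⟩ : ∃ j, d - e = j + 1 := ⟨d - e - 1, by omega⟩
  rw [hj, mul_assoc]
  exact Dvd.dvd.mul_left (mul_dvd_mul (kap_dvd μ g h e) (h j)) _

/-! ### the case `3 ∤ α 1 + α 2` -/

lemma mu_dvd3 (α : ℕ → ℤ) (j : ℕ) : (3 : ℤ) ∣ mu α (j + 1) := by
  rw [mu_split α (j + 1) 1]
  apply dvd_add
  · simp [TT]
  · apply Finset.dvd_sum
    intro m _
    exact Dvd.dvd.mul_right (Dvd.dvd.mul_left (bet_dvd3 m) _) _

lemma mu_mod9 (α : ℕ → ℤ) (d : ℕ) : (9 : ℤ) ∣ mu α (d + 2) - 3 * (α 1 + α 2) := by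
  rw [mu_split α (d + 2) 3]
  have h1 : (9 : ℤ) ∣ ∑ m ∈ range (d + 2 + 1), α (3 + m) * bet (3 + m) * TT (d + 2) (3 + m) := by
    apply Finset.dvd_sum
    intro m _
    exact Dvd.dvd.mul_right (Dvd.dvd.mul_left (bet_dvd9 m) _) _
  have h2 : ∑ m ∈ range 3, α m * bet m * TT (d + 2) m =
      3 * α 1 + 30 * α 2 * TT (d + 2) 2 := by
    have h3 : TT (d + 2) 1 = 1 := TT_one (d + 1)
    have h4 : TT (d + 2) 0 = 0 := rfl
    simp only [Finset.sum_range_succ, Finset.sum_range_zero, h3, h4, bet]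
    push_cast
    ring
  have h5 : ∃ z : ℤ, TT (d + 2) 2 = 1 + 3 * z := by
    refine ⟨TT (d + 1) 2, ?_⟩
    rw [TT, TT_one]
    simp [tri]
  obtain ⟨z, hz⟩ := h5
  obtain ⟨y, hy⟩ := h1
  rw [h2, hy, hz]
  exact ⟨3 * α 2 + 10 * α 2 * z + y, by ring⟩

lemma kap_ne_A (α : ℕ → ℤ) (h1 : α 1 ≠ 0) (h2 : ¬ (3 : ℤ) ∣ α 1 + α 2) (d : ℕ) :
    kap (mu α) d ≠ 0 := by
  intro h
  rcases d with _ | d
  · rw [kap_eq, Finset.sum_range_zero, sub_zero, mu_one] at h
    exact h1 (by omega)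
  · have h3 := kap_dvd2 (mu α) 3 (mu_dvd3 α) (d + 1)
    rw [h, zero_sub, dvd_neg] at h3
    obtain ⟨y, hy⟩ := h3
    obtain ⟨z, hz⟩ := mu_mod9 α d
    have h4 : mu α (d + 1 + 1) = mu α (d + 2) := rfl
    rw [h4] at hy
    apply h2
    refine ⟨3 * y - 3 * z, by omega⟩

/-! ### the case `α m = c ^ m` -/

lemma mu_c (c : ℤ) (d : ℕ) : ∃ z : ℤ, mu (fun m => c ^ m) (d + 1) = 3 * c + 3 * c * c * z := by
  rw [mu_split _ (d + 1) 2]
  have h1 : 3 * c * c ∣ ∑ m ∈ range (d + 1 + 1), c ^ (2 + m) * bet (2 + m) * TT (d + 1) (2 + m) := by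
    apply Finset.dvd_sum
    intro m _
    apply Dvd.dvd.mul_right
    have h3 : (3 : ℤ) ∣ bet (2 + m) := by
      have := bet_dvd3 (1 + m)
      rwa [← add_assoc] at this
    obtain ⟨y, hy⟩ := h3
    rw [hy]
    exact ⟨c ^ m * y, by ring⟩
  obtain ⟨z, hz⟩ := h1
  refine ⟨z, ?_⟩
  rw [hz]
  have h3 : TT (d + 1) 1 = 1 := TT_one d
  have h4 : TT (d + 1) 0 = 0 := rfl
  simp only [Finset.sum_range_succ, Finset.sum_range_zero, h3, h4, bet]
  push_cast
  ring

lemma kap_ne_B (c : ℤ) (h0 : c ≠ 0) (h1 : ¬ IsUnit c) (d : ℕ) :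
    kap (mu fun m => c ^ m) d ≠ 0 := by
  intro h
  have h2 := kap_dvd2 (mu fun m => c ^ m) (3 * c) (by
    intro j
    obtain ⟨z, hz⟩ := mu_c c j
    rw [hz]
    exact ⟨1 + c * z, by ring⟩) d
  rw [h, zero_sub, dvd_neg] at h2
  obtain ⟨y, hy⟩ := h2
  obtain ⟨z, hz⟩ := mu_c c d
  rw [hz] at hy
  apply h1
  have h3 : (3 * c) * (1 + c * z) = (3 * c) * (3 * c * y) := by linear_combination hy
  have h4 : 1 + c * z = 3 * c * y := mul_left_cancel₀ (mul_ne_zero (by norm_num) h0) h3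
  exact isUnit_of_dvd_one ⟨3 * y - z, by linear_combination h4⟩

/-! ### the case `c = -1`: modulo 8 -/

lemma mu_mod8 (d : ℕ) : ((mu (fun m => (-1) ^ m) d : ℤ) : ZMod 8) = 0 ^ d - 1 + 6 ^ d := by
  rcases d with _ | d
  · rw [mu_zero _ (by simp)]
    decide
  · have h0 : ((mu (fun m => (-1) ^ m) (d + 1) : ℤ) : ZMod 8) =
        ((-1 + 6 ^ (d + 1) : ℤ) : ZMod 8) := by
      rw [ZMod.intCast_eq_intCast_iff_dvd_sub]
      rw [mu_split _ (d + 1) 4]
      have h1 : (8 : ℤ) ∣ ∑ m ∈ range (d + 1 + 1), (-1) ^ (4 + m) * bet (4 + m) * TT (d + 1) (4 + m) := by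
        apply Finset.dvd_sum
        intro m _
        exact Dvd.dvd.mul_right (Dvd.dvd.mul_left (bet_dvd8 m) _) _
      have h2 : ∑ m ∈ range 4, (-1) ^ m * bet m * TT (d + 1) m =
          -81 + 40 * 3 ^ (d + 1) - 7 * 6 ^ (d + 1) := by
        have h3 : TT (d + 1) 1 = 1 := TT_one d
        have h4 : TT (d + 1) 0 = 0 := rfl
        have h5 := TT_two d
        have h6 := TT_three d
        simp only [Finset.sum_range_succ, Finset.sum_range_zero, h3, h4, bet]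
        push_cast
        rw [pow_succ 3 d] at h6 ⊢
        linear_combination 15 * h5 - 7 * h6
      rw [h2]
      obtain ⟨y, hy⟩ := h1
      rw [hy]
      refine ⟨10 - 5 * 3 ^ (d + 1) + 6 ^ (d + 1) - y, by push_cast; ring⟩
    rw [h0]
    push_cast
    rw [zero_pow (by omega), zero_sub]

lemma pow8 (x : ZMod 8) (n : ℕ) : x ^ (3 + 2 * n) = x ^ 3 ∧ x ^ (4 + 2 * n) = x ^ 4 := by
  induction n with
  | zero => exact ⟨rfl, rfl⟩
  | succ n ih =>
    have h : ∀ x : ZMod 8, x ^ 3 * x ^ 2 = x ^ 3 := by decide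
    have h' : ∀ x : ZMod 8, x ^ 4 * x ^ 2 = x ^ 4 := by decide
    refine ⟨?_, ?_⟩
    · rw [show 3 + 2 * (n + 1) = (3 + 2 * n) + 2 by ring, pow_add, ih.1, h]
    · rw [show 4 + 2 * (n + 1) = (4 + 2 * n) + 2 by ring, pow_add, ih.2, h']

lemma conv8 (d : ℕ) : ∑ e ∈ range (d + 1), (d.choose e : ZMod 8) * (5 - (-1) ^ e + 4 ^ e) *
    (0 ^ (d - e) - 1 + 6 ^ (d - e)) = 0 ^ (d + 1) - 1 + 6 ^ (d + 1) := by
  have h : ∀ x y : ZMod 8, ∑ e ∈ range (d + 1), (d.choose e : ZMod 8) * (x ^ e * y ^ (d - e)) =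
      (x + y) ^ d := by
    intro x y
    rw [add_pow]
    apply Finset.sum_congr rfl
    intro e _
    ring
  have h1 : ∑ e ∈ range (d + 1), (d.choose e : ZMod 8) * (5 - (-1) ^ e + 4 ^ e) *
      (0 ^ (d - e) - 1 + 6 ^ (d - e)) =
      5 * ((1 + 0) ^ d - (1 + 1) ^ d + (1 + 6) ^ d) -
        ((-1 + 0) ^ d - (-1 + 1) ^ d + (-1 + 6) ^ d) + ((4 + 0) ^ d - (4 + 1) ^ d + (4 + 6) ^ d) := by
    rw [← h, ← h, ← h, ← h, ← h, ← h, ← h, ← h, ← h]
    simp only [Finset.mul_sum, ← Finset.sum_sub_distrib, ← Finset.sum_add_distrib]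
    apply Finset.sum_congr rfl
    intro e _
    simp only [one_pow]
    ring
  rw [h1]
  rcases d with _ | _ | _ | d
  · decide
  · decide
  · decide
  · rcases Nat.even_or_odd d with ⟨n, hn⟩ | ⟨n, hn⟩
    · have e1 : d + 1 + 1 + 1 = 3 + 2 * n := by omega
      rw [e1]
      simp only [pow_succ _ (3 + 2 * n), (pow8 _ n).1]
      decide
    · have e1 : d + 1 + 1 + 1 = 4 + 2 * n := by omega
      rw [e1]
      simp only [pow_succ _ (4 + 2 * n), (pow8 _ n).2]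
      decide

lemma kap_mod8 (d : ℕ) : ((kap (mu fun m => (-1) ^ m) d : ℤ) : ZMod 8) = 5 - (-1) ^ d + 4 ^ d := by
  induction d using Nat.strong_induction_on with
  | _ d ih =>
    have h1 := conv8 d
    rw [Finset.sum_range_succ, Nat.choose_self, Nat.sub_self] at h1
    rw [kap_eq]
    push_cast
    rw [mu_mod8, ← h1]
    have h2 : ∑ e ∈ range d, (d.choose e : ZMod 8) * ((kap (mu fun m => (-1) ^ m) e : ℤ) : ZMod 8) *
        ((mu (fun m => (-1) ^ m) (d - e) : ℤ) : ZMod 8) =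
        ∑ e ∈ range d, (d.choose e : ZMod 8) * (5 - (-1) ^ e + 4 ^ e) *
          (0 ^ (d - e) - 1 + 6 ^ (d - e)) := by
      apply Finset.sum_congr rfl
      intro e he
      rw [ih e (Finset.mem_range.1 he), mu_mod8]
    rw [h2]
    simp

lemma kap_ne_C (d : ℕ) : kap (mu fun m => (-1) ^ m) d ≠ 0 := by
  intro h
  have h1 := kap_mod8 d
  rw [h] at h1
  push_cast at h1
  rcases d with _ | _ | _ | d
  · exact absurd h1 (by decide)
  · exact absurd h1 (by decide)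
  · exact absurd h1 (by decide)
  · rcases Nat.even_or_odd d with ⟨n, hn⟩ | ⟨n, hn⟩
    · have e1 : d + 1 + 1 + 1 = 3 + 2 * n := by omega
      rw [e1] at h1
      simp only [(pow8 _ n).1] at h1
      exact absurd h1 (by decide)
    · have e1 : d + 1 + 1 + 1 = 4 + 2 * n := by omega
      rw [e1] at h1
      simp only [(pow8 _ n).2] at h1
      exact absurd h1 (by decide)

theorem kap_ne (α : ℕ → ℤ) (h1 : α 1 ≠ 0)
    (h : ¬ (3 : ℤ) ∣ α 1 + α 2 ∨ ∀ m, α m = α 1 ^ m) (d : ℕ) : kap (mu α) d ≠ 0 := by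
  rcases h with h | h
  · exact kap_ne_A α h1 h d
  · by_cases hu : IsUnit (α 1)
    · rcases Int.isUnit_iff.1 hu with h2 | h2
      · apply kap_ne_A α h1
        rw [h 2, h2]
        norm_num
      · have : α = fun m => (-1) ^ m := by
          funext m
          rw [h m, h2]
        rw [this]
        exact kap_ne_C d
    · have : α = fun m => (α 1) ^ m := by
        funext m
        rw [← h m]
      rw [this]
      exact kap_ne_B _ h1 hu d

end Pool.Agent.V8H83.LM
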