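import Pool.Agent.V8H83.LM.U
import Pool.Agent.V8H83.LM.Nt

set_option autoImplicit false

open Finset Polynomial

namespace Pool.Agent.V8H83.LM

/-! ### the leading part of the series -/

lemma lam_succ (m : ℕ) : lam (m + 1) = 2 * (tri (m + 1) : ℚ) := by
  have h := tri_eq (m + 1)
  rw [lam]
  have h2 : ((2 * tri (m + 1) : ℤ) : ℚ) = (((m + 1 : ℕ) * ((m + 1 : ℕ) + 1) : ℤ) : ℚ) := by rw [h]
  push_cast at h2 ⊢
  exact h2.symm

lemma E_lam (d : ℕ) : ∀ m : ℕ, E lam (fun k => lam k ^ d) (range (m + 1)) * 2 ^ m =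
    2 ^ d * (TT d m : ℚ) := by
  induction d with
  | zero =>
    intro m
    rcases m with _ | m
    · simp [E, TT]
    · have h := dd_eq_E lam (fun _ => (1 : ℚ)) lam_inj (m + 1) 0
      rw [Icc_zero, dd_const] at h
      simp only [pow_zero]
      rw [← h]
      simp [TT]
  | succ d ih =>
    intro m
    rcases m with _ | m
    · simp [E, lam, TT]
    · rw [E_pow_succ lam lam_inj m d]
      have h1 := ih m
      have h2 := ih (m + 1)
      rw [TT, lam_succ]
      push_cast
      rw [pow_succ, pow_succ] at *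
      linear_combination 2 * h1 + 2 * (tri (m + 1) : ℚ) * h2

lemma coeff_top_S (a : ℕ → PowerSeries ℚ) (α : ℕ → ℤ)
    (h : ∀ m, PowerSeries.constantCoeff (a m) = (α m : ℚ)) (d : ℕ) :
    PowerSeries.coeff d (top (S a)) = 2 ^ d * (mu α d : ℚ) / (d.factorial : ℚ) := by
  rw [coeff_top, S, PowerSeries.coeff_mk, Polynomial.finsetSum_coeff, mu]
  push_cast
  rw [Finset.mul_sum, Finset.sum_div]
  apply Finset.sum_congr rfl
  intro m _
  rw [← coeff_top, coeff_top_T, h m]
  have h1 := E_lam d m
  have h2 : ((2 * m + 1).factorial : ℚ) = (bet m : ℚ) * 2 ^ m := by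
    have := bet_eq m
    exact_mod_cast this
  rw [h2]
  have h3 : (d.factorial : ℚ) ≠ 0 := by exact_mod_cast d.factorial_ne_zero
  field_simp
  linear_combination ((α m : ℚ) * (bet m : ℚ)) * h1

/-! ### the derivation `h d/dh` -/

/-- `h d/dh` -/
noncomputable def Dx {A : Type} [CommRing A] (F : PowerSeries A) : PowerSeries A :=
  PowerSeries.mk fun d => (d : A) * PowerSeries.coeff d F

lemma coeff_Dx {A : Type} [CommRing A] (F : PowerSeries A) (d : ℕ) :
    PowerSeries.coeff d (Dx F) = (d : A) * PowerSeries.coeff d F := by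
  rw [Dx, PowerSeries.coeff_mk]

lemma Dx_mul {A : Type} [CommRing A] (F G : PowerSeries A) :
    Dx (F * G) = Dx F * G + F * Dx G := by
  ext d
  rw [coeff_Dx, map_add, PowerSeries.coeff_mul, PowerSeries.coeff_mul, PowerSeries.coeff_mul,
    ← Finset.sum_add_distrib, Finset.mul_sum]
  apply Finset.sum_congr rfl
  intro x hx
  have h := Finset.HasAntidiagonal.mem_antidiagonal.1 hx
  rw [coeff_Dx, coeff_Dx, ← h]
  push_cast
  ring

lemma Dx_one {A : Type} [CommRing A] : Dx (1 : PowerSeries A) = 0 := by
  ext d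
  rw [coeff_Dx, PowerSeries.coeff_one]
  rcases d with _ | d
  · simp
  · simp

lemma Dx_evalP (n : ℤ) (F : PowerSeries ℚ[X]) : evalP n (Dx F) = Dx (evalP n F) := by
  ext d
  rw [evalP_coeff, coeff_Dx, coeff_Dx, evalP_coeff]
  simp

lemma good_Dx {F : PowerSeries ℚ[X]} (h : Good F) : Good (Dx F) := by
  intro d
  rw [coeff_Dx]
  calc ((d : ℚ[X]) * PowerSeries.coeff d F).natDegree ≤
      (d : ℚ[X]).natDegree + (PowerSeries.coeff d F).natDegree := natDegree_mul_le
    _ ≤ 0 + d := Nat.add_le_add (by rw [natDegree_natCast]) (h d)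
    _ = d := zero_add d

lemma top_Dx (F : PowerSeries ℚ[X]) : top (Dx F) = Dx (top F) := by
  ext d
  rw [coeff_top, coeff_Dx, coeff_Dx, coeff_top]
  have : (d : ℚ[X]) = C (d : ℚ) := by simp
  rw [this, coeff_C_mul]

/-! ### the logarithmic derivative -/

lemma S_zero (a : ℕ → PowerSeries ℚ) (ha : a 0 = 1) : PowerSeries.constantCoeff (S a) = 1 := by
  have h1 : ∀ n : ℤ, PowerSeries.coeff 0 (evalP n (S a)) = 1 := by
    intro n
    rw [evalP_S, ohtsuki, PowerSeries.coeff_mk]
    simp only [zero_add, Finset.sum_range_one]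
    have h2 := one_sub_q_ne (m := 1) one_ne_zero
    have h3 : term a n 0 = 1 := by
      rw [term, ha]
      have : u 0 n = 1 := by
        rw [u_eq, poch_zero, E]
        simp [fq, q_zero]
      rw [this]
      simp only [PowerSeries.coe_one, Nat.cast_zero, zero_mul, neg_zero, q_zero, zero_add,
        Finset.prod_range_one, add_zero, one_mul]
      exact div_self h2
    rw [h3]
    have := coe_coeff 1 0
    rw [PowerSeries.coe_one] at this
    rw [this]
    simp
  rw [← PowerSeries.coeff_zero_eq_constantCoeff_apply]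
  apply Polynomial.eq_of_infinite_eval_eq
  apply infinite_nat
  intro p
  have := h1 p
  rw [evalP_coeff] at this
  rw [eval_one]
  exact_mod_cast this

/-- the logarithmic derivative of the series -/
noncomputable def N (a : ℕ → PowerSeries ℚ) : PowerSeries ℚ[X] :=
  PowerSeries.invOfUnit (S a) 1 * Dx (S a)

lemma S_mul_N (a : ℕ → PowerSeries ℚ) (ha : a 0 = 1) : S a * N a = Dx (S a) := by
  rw [N, ← mul_assoc, PowerSeries.mul_invOfUnit _ _ (by rw [S_zero a ha]; rfl), one_mul]

lemma coeff_rec {A : Type} [CommRing A] {F G H : PowerSeries A} (h : F * G = H)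
    (h0 : PowerSeries.constantCoeff F = 1) (d : ℕ) : PowerSeries.coeff d G =
      PowerSeries.coeff d H - ∑ k ∈ range d, PowerSeries.coeff (k + 1) F *
        PowerSeries.coeff (d - (k + 1)) G := by
  rw [← h, PowerSeries.coeff_mul]
  rw [Finset.Nat.sum_antidiagonal_eq_sum_range_succ
    (fun i j => PowerSeries.coeff i F * PowerSeries.coeff j G) d, Finset.sum_range_succ']
  rw [PowerSeries.coeff_zero_eq_constantCoeff_apply, h0, Nat.sub_zero]
  ring

lemma good_N (a : ℕ → PowerSeries ℚ) (ha : a 0 = 1) : Good (N a) := by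
  intro d
  induction d using Nat.strong_induction_on with
  | _ d ih =>
    rw [coeff_rec (S_mul_N a ha) (S_zero a ha) d]
    apply (natDegree_sub_le _ _).trans
    apply max_le (good_Dx (good_S a) d)
    apply natDegree_sum_le_of_forall_le
    intro k hk
    have hk' := Finset.mem_range.1 hk
    calc (PowerSeries.coeff (k + 1) (S a) * PowerSeries.coeff (d - (k + 1)) (N a)).natDegree ≤
        (PowerSeries.coeff (k + 1) (S a)).natDegree +
          (PowerSeries.coeff (d - (k + 1)) (N a)).natDegree := natDegree_mul_le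
      _ ≤ (k + 1) + (d - (k + 1)) := Nat.add_le_add (good_S a _) (ih _ (by omega))
      _ = d := by omega

/-- The leading coefficients of the logarithmic derivative. -/
lemma top_N (a : ℕ → PowerSeries ℚ) (α : ℕ → ℤ) (ha : a 0 = 1)
    (h : ∀ m, PowerSeries.constantCoeff (a m) = (α m : ℚ)) (d : ℕ) :
    PowerSeries.coeff (d + 1) (top (N a)) * (d.factorial : ℚ) =
      2 ^ (d + 1) * (kap (mu α) d : ℚ) := by
  have hα : α 0 = 1 := by
    have := h 0
    rw [ha] at this
    have h2 : ((α 0 : ℤ) : ℚ) = 1 := by rw [← this]; simp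
    exact_mod_cast h2
  have h1 : top (S a) * top (N a) = Dx (top (S a)) := by
    rw [← top_mul (good_S a) (good_N a ha), S_mul_N a ha, top_Dx]
  have hN0 : PowerSeries.coeff 0 (top (N a)) = 0 := by
    have h2 := congrArg (PowerSeries.coeff 0) h1
    rw [coeff_Dx, PowerSeries.coeff_zero_eq_constantCoeff_apply, map_mul] at h2
    rw [← PowerSeries.coeff_zero_eq_constantCoeff_apply (top (S a)), coeff_top_S a α h,
      mu_zero α hα] at h2
    rw [PowerSeries.coeff_zero_eq_constantCoeff_apply]
    simpa using h2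
  induction d using Nat.strong_induction_on with
  | _ d ih =>
    have h2 := congrArg (PowerSeries.coeff (d + 1)) h1
    rw [mul_comm, PowerSeries.coeff_mul, Finset.Nat.sum_antidiagonal_eq_sum_range_succ
      (fun i j => PowerSeries.coeff i (top (N a)) * PowerSeries.coeff j (top (S a))) (d + 1),
      Finset.sum_range_succ', hN0, zero_mul, add_zero, coeff_Dx] at h2
    rw [Finset.sum_range_succ] at h2
    have h3 : d + 1 - (d + 1) = 0 := by omega
    rw [h3, coeff_top_S a α h 0, coeff_top_S a α h (d + 1), mu_zero α hα] at h2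
    have h4 : ∑ k ∈ range d, PowerSeries.coeff (k + 1) (top (N a)) *
        PowerSeries.coeff (d + 1 - (k + 1)) (top (S a)) =
        2 ^ (d + 1) / (d.factorial : ℚ) *
          ∑ k ∈ range d, (d.choose k : ℚ) * (kap (mu α) k : ℚ) * (mu α (d - k) : ℚ) := by
      rw [Finset.mul_sum]
      apply Finset.sum_congr rfl
      intro k hk
      have hk' := Finset.mem_range.1 hk
      have h5 := ih k hk'
      have h6 : d + 1 - (k + 1) = d - k := by omega
      rw [h6, coeff_top_S a α h]
      have h7 := Nat.choose_mul_factorial_mul_factorial hk'.le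
      have h8 : (d.choose k : ℚ) * k.factorial * (d - k).factorial = d.factorial := by
        exact_mod_cast h7
      have h9 : (d.factorial : ℚ) ≠ 0 := by exact_mod_cast d.factorial_ne_zero
      have h10 : (k.factorial : ℚ) ≠ 0 := by exact_mod_cast k.factorial_ne_zero
      have h11 : ((d - k).factorial : ℚ) ≠ 0 := by exact_mod_cast (d - k).factorial_ne_zero
      have h12 : (2 : ℚ) ^ (d + 1) = 2 ^ (k + 1) * 2 ^ (d - k) := by
        rw [← pow_add]; congr 1; omega
      have h13 : PowerSeries.coeff (k + 1) (top (N a)) =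
          2 ^ (k + 1) * (kap (mu α) k : ℚ) / (k.factorial : ℚ) := by
        rw [eq_div_iff h10]; exact h5
      rw [h13, h12, ← h8]
      have h14 : (d.choose k : ℚ) ≠ 0 := by
        intro h0
        rw [h0] at h8
        simp at h8
        exact h9 h8.symm
      field_simp
    rw [h4] at h2
    have h5 := kap_rec (mu α) (mu_zero α hα) d
    rw [Finset.sum_range_succ, Nat.choose_self, Nat.sub_self, mu_zero α hα] at h5
    have h6 : (mu α (d + 1) : ℚ) = ∑ k ∈ range d, (d.choose k : ℚ) * (kap (mu α) k : ℚ) *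
        (mu α (d - k) : ℚ) + (kap (mu α) d : ℚ) := by
      rw [h5]; push_cast; ring
    have h7 : ((d + 1).factorial : ℚ) = (d + 1) * (d.factorial : ℚ) := by
      rw [Nat.factorial_succ]; push_cast; ring
    have h9 : (d.factorial : ℚ) ≠ 0 := by exact_mod_cast d.factorial_ne_zero
    have h10 : ((d : ℚ) + 1) ≠ 0 := by positivity
    rw [h6, h7] at h2
    simp only [pow_zero, Int.cast_one, mul_one, Nat.factorial_zero, Nat.cast_one, div_one] at h2
    have h11 : PowerSeries.coeff (d + 1) (top (N a)) =
        2 ^ (d + 1) * (kap (mu α) d : ℚ) / (d.factorial : ℚ) := by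
      have h12 : ((d + 1 : ℕ) : ℚ) = (d : ℚ) + 1 := by push_cast; ring
      rw [h12] at h2
      field_simp at h2 ⊢
      linear_combination h2
    rw [h11]
    field_simp

end Pool.Agent.V8H83.LM
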