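import Pool.Agent.V8H83.LM.Log

set_option autoImplicit false

open Finset Polynomial

namespace Pool.Agent.V8H83.LM

/-! ### surgery with `n = 0` -/

lemma u_at_zero (m : ℕ) : u (m + 1) 0 = 0 := by
  rw [u_eq]
  have h := dd_eq_E Xn (fq 0) Xn_inj (m + 1) 0
  have h0 : fq 0 = fun _ => 1 := by
    funext k; rw [fq]; simp [q_zero]
  rw [Icc_zero, h0, dd_const] at h
  rw [h0, ← h, mul_zero]

lemma term_at_zero (a : ℕ → PowerSeries ℚ) (m : ℕ) : term a 0 (m + 1) = 0 := by
  rw [term, u_at_zero]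
  simp

lemma u_zero (n : ℤ) : u 0 n = 1 := by
  rw [u_eq, poch_zero, E]
  simp [fq, q_zero]

lemma term_zero (a : ℕ → PowerSeries ℚ) (ha : a 0 = 1) (n : ℤ) : term a n 0 = 1 := by
  have h2 := one_sub_q_ne (m := 1) one_ne_zero
  rw [term, ha, u_zero]
  simp only [PowerSeries.coe_one, Nat.cast_zero, zero_mul, neg_zero, q_zero, zero_add,
    Finset.prod_range_one, add_zero, one_mul]
  exact div_self h2

lemma ohtsuki_zero (a : ℕ → PowerSeries ℚ) (ha : a 0 = 1) : ohtsuki a 0 = 1 := by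
  ext d
  rw [ohtsuki, PowerSeries.coeff_mk, Finset.sum_range_succ']
  simp only [term_at_zero, Finset.sum_const_zero, zero_add, term_zero a ha]
  rw [← PowerSeries.coe_one, coe_coeff]

lemma ohtsuki_const (a : ℕ → PowerSeries ℚ) (ha : a 0 = 1) (n : ℤ) :
    PowerSeries.constantCoeff (ohtsuki a n) = 1 := by
  rw [← PowerSeries.coeff_zero_eq_constantCoeff_apply, ohtsuki, PowerSeries.coeff_mk]
  simp only [zero_add, Finset.sum_range_one, term_zero a ha]
  have := coe_coeff 1 0
  rw [PowerSeries.coe_one] at this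
  rw [this]
  simp

/-! ### products -/

lemma Dx_ohtsuki (a : ℕ → PowerSeries ℚ) (ha : a 0 = 1) (n : ℤ) :
    Dx (ohtsuki a n) = ohtsuki a n * evalP n (N a) := by
  rw [← evalP_S, ← Dx_evalP, ← S_mul_N a ha, map_mul]

lemma Dx_prod (a : ℕ → PowerSeries ℚ) (ha : a 0 = 1) (M : Multiset ℤ) :
    Dx (M.map (ohtsuki a)).prod =
      (M.map (ohtsuki a)).prod * (M.map fun n => evalP n (N a)).sum := by
  induction M using Multiset.induction_on with
  | empty => simp [Dx_one]
  | cons n M ih =>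
    rw [Multiset.map_cons, Multiset.prod_cons, Multiset.map_cons, Multiset.sum_cons, Dx_mul, ih,
      Dx_ohtsuki a ha]
    ring

lemma prod_const (a : ℕ → PowerSeries ℚ) (ha : a 0 = 1) (M : Multiset ℤ) :
    PowerSeries.constantCoeff (M.map (ohtsuki a)).prod = 1 := by
  induction M using Multiset.induction_on with
  | empty => simp
  | cons n M ih => rw [Multiset.map_cons, Multiset.prod_cons, map_mul, ih, ohtsuki_const a ha, one_mul]

lemma coeff_sum_evalP (F : PowerSeries ℚ[X]) (d : ℕ) (M : Multiset ℤ) :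
    PowerSeries.coeff d (M.map fun n => evalP n F).sum =
      (M.map fun n : ℤ => (PowerSeries.coeff d F).eval (n : ℚ)).sum := by
  induction M using Multiset.induction_on with
  | empty => simp
  | cons n M ih =>
    rw [Multiset.map_cons, Multiset.sum_cons, map_add, ih, evalP_coeff, Multiset.map_cons,
      Multiset.sum_cons]

/-- the sum of a polynomial over a multiset -/
noncomputable def sm (M : Multiset ℤ) (Q : ℚ[X]) : ℚ := (M.map fun n : ℤ => Q.eval (n : ℚ)).sum

lemma sm_zero (M : Multiset ℤ) : sm M 0 = 0 := by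
  simp [sm]

lemma sm_add (M : Multiset ℤ) (P Q : ℚ[X]) : sm M (P + Q) = sm M P + sm M Q := by
  simp only [sm, eval_add, Multiset.sum_map_add]

lemma sm_C_mul (M : Multiset ℤ) (c : ℚ) (Q : ℚ[X]) : sm M (C c * Q) = c * sm M Q := by
  simp only [sm, eval_mul, eval_C, Multiset.sum_map_mul_left]

lemma N_at_zero (a : ℕ → PowerSeries ℚ) (ha : a 0 = 1) (d : ℕ) :
    (PowerSeries.coeff d (N a)).eval 0 = 0 := by
  have h := Dx_ohtsuki a ha 0
  rw [ohtsuki_zero a ha, Dx_one, one_mul] at h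
  have h2 := congrArg (PowerSeries.coeff d) h
  rw [evalP_coeff] at h2
  simpa using h2.symm

lemma sm_N_eq (a : ℕ → PowerSeries ℚ) (ha : a 0 = 1) (M M' : Multiset ℤ)
    (h : (M.map (ohtsuki a)).prod = (M'.map (ohtsuki a)).prod) (d : ℕ) :
    sm M (PowerSeries.coeff d (N a)) = sm M' (PowerSeries.coeff d (N a)) := by
  have h1 := Dx_prod a ha M
  have h2 := Dx_prod a ha M'
  rw [h, h2] at h1
  have h3 : (M'.map (ohtsuki a)).prod ≠ 0 := by
    intro h0
    have := prod_const a ha M'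
    rw [h0, map_zero] at this
    exact zero_ne_one this
  have h4 := mul_left_cancel₀ h3 h1
  have h5 := congrArg (PowerSeries.coeff d) h4
  rw [coeff_sum_evalP, coeff_sum_evalP] at h5
  exact h5.symm

lemma sm_eq (a : ℕ → PowerSeries ℚ) (ha : a 0 = 1)
    (hN : ∀ d, PowerSeries.coeff (d + 1) (top (N a)) ≠ 0) (M M' : Multiset ℤ)
    (h : (M.map (ohtsuki a)).prod = (M'.map (ohtsuki a)).prod) (D : ℕ) :
    ∀ Q : ℚ[X], Q.natDegree ≤ D → Q.eval 0 = 0 → sm M Q = sm M' Q := by
  induction D with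
  | zero =>
    intro Q hQ h0
    have h1 := eq_C_of_natDegree_le_zero hQ
    rw [h1, eval_C] at h0
    rw [h1, h0, C_0, sm_zero, sm_zero]
  | succ D ih =>
    intro Q hQ h0
    set ν := PowerSeries.coeff (D + 1) (top (N a)) with hν
    have hν0 : ν ≠ 0 := hN D
    have hνc : (PowerSeries.coeff (D + 1) (N a)).coeff (D + 1) = ν := by rw [hν, coeff_top]
    set P := PowerSeries.coeff (D + 1) (N a) with hP
    set c := Q.coeff (D + 1) / ν with hc
    have h1 : (Q + C (-c) * P).natDegree ≤ D := by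
      rw [natDegree_le_iff_coeff_eq_zero]
      intro k hk
      rw [coeff_add, coeff_C_mul]
      rcases Nat.lt_or_ge (D + 1) k with h2 | h2
      · rw [coeff_eq_zero_of_natDegree_lt (lt_of_le_of_lt hQ h2),
          coeff_eq_zero_of_natDegree_lt (lt_of_le_of_lt (good_N a ha (D + 1)) h2)]
        ring
      · have h3 : k = D + 1 := by omega
        rw [h3, hνc, hc]
        field_simp
        ring
    have h2 : (Q + C (-c) * P).eval 0 = 0 := by
      rw [eval_add, eval_mul, h0, hP, N_at_zero a ha]; ring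
    have h3 := ih _ h1 h2
    rw [sm_add, sm_add, sm_C_mul, sm_C_mul, hP, sm_N_eq a ha M M' h] at h3
    linarith

lemma sm_delta (Q : ℚ[X]) (v : ℤ) (M : Multiset ℤ)
    (h : ∀ n ∈ M, n ≠ v → Q.eval (n : ℚ) = 0) : sm M Q = (M.count v : ℚ) * Q.eval (v : ℚ) := by
  induction M using Multiset.induction_on with
  | empty => simp [sm]
  | cons n M ih =>
    have h1 := ih fun k hk => h k (Multiset.mem_cons_of_mem hk)
    rw [sm, Multiset.map_cons, Multiset.sum_cons]
    change Q.eval (n : ℚ) + sm M Q = _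
    rw [h1, Multiset.count_cons]
    by_cases hn : n = v
    · rw [hn]; simp; ring
    · rw [h n (Multiset.mem_cons_self n M) hn, if_neg (fun h => hn h.symm)]
      simp

theorem count_eq (a : ℕ → PowerSeries ℚ) (ha : a 0 = 1)
    (hN : ∀ d, PowerSeries.coeff (d + 1) (top (N a)) ≠ 0) (M M' : Multiset ℤ)
    (h : (M.map (ohtsuki a)).prod = (M'.map (ohtsuki a)).prod) (v : ℤ) (hv : v ≠ 0) :
    M.count v = M'.count v := by
  classical
  set s : Finset ℤ := (M + M').toFinset.erase v with hs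
  set Q : ℚ[X] := X * ∏ k ∈ s, (X - C (k : ℚ)) with hQ
  have h1 : ∀ n ∈ M + M', n ≠ v → Q.eval (n : ℚ) = 0 := by
    intro n hn hnv
    rw [hQ, eval_mul, eval_prod]
    apply mul_eq_zero_of_right
    apply Finset.prod_eq_zero (i := n)
    · rw [hs, Finset.mem_erase]
      exact ⟨hnv, Multiset.mem_toFinset.2 hn⟩
    · simp
  have h2 : Q.eval (v : ℚ) ≠ 0 := by
    rw [hQ, eval_mul, eval_X, eval_prod]
    apply mul_ne_zero (by exact_mod_cast hv)
    rw [Finset.prod_ne_zero_iff]
    intro k hk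
    rw [eval_sub, eval_X, eval_C, sub_ne_zero]
    intro h3
    have h4 : v = k := by exact_mod_cast h3
    rw [← h4, hs] at hk
    exact absurd hk (Finset.notMem_erase _ _)
  have h3 : Q.eval 0 = 0 := by rw [hQ, eval_mul, eval_X, zero_mul]
  have h4 := sm_eq a ha hN M M' h Q.natDegree Q le_rfl h3
  rw [sm_delta Q v M (fun n hn => h1 n (Multiset.mem_add.2 (Or.inl hn))),
    sm_delta Q v M' (fun n hn => h1 n (Multiset.mem_add.2 (Or.inr hn)))] at h4
  have h5 := mul_right_cancel₀ h2 h4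
  exact_mod_cast h5

lemma prod_filter (a : ℕ → PowerSeries ℚ) (ha : a 0 = 1) (M : Multiset ℤ) :
    (M.map (ohtsuki a)).prod = ((M.filter (· ≠ 0)).map (ohtsuki a)).prod := by
  induction M using Multiset.induction_on with
  | empty => simp
  | cons n M ih =>
    rw [Multiset.map_cons, Multiset.prod_cons, ih, Multiset.filter_cons]
    by_cases hn : n = 0
    · rw [hn, ohtsuki_zero a ha]; simp
    · simp [hn]

/-- the products determine the nonzero parameters -/
theorem prod_eq_iff (a : ℕ → PowerSeries ℚ) (ha : a 0 = 1)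
    (hN : ∀ d, PowerSeries.coeff (d + 1) (top (N a)) ≠ 0) (M M' : Multiset ℤ) :
    (M.map (ohtsuki a)).prod = (M'.map (ohtsuki a)).prod ↔
      M.filter (· ≠ 0) = M'.filter (· ≠ 0) := by
  constructor
  · intro h
    ext v
    rw [Multiset.count_filter, Multiset.count_filter]
    by_cases hv : v = 0
    · simp [hv]
    · rw [if_pos hv, if_pos hv]
      exact count_eq a ha hN M M' h v hv
  · intro h
    rw [prod_filter a ha M, prod_filter a ha M', h]

theorem general (a : ℕ → PowerSeries ℚ) (α : ℕ → ℤ) (ha : a 0 = 1)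
    (h : ∀ m, PowerSeries.constantCoeff (a m) = (α m : ℚ)) (h1 : α 1 ≠ 0)
    (h2 : ¬ (3 : ℤ) ∣ α 1 + α 2 ∨ ∀ m, α m = α 1 ^ m) (M M' : Multiset ℤ) :
    (M.map (ohtsuki a)).prod = (M'.map (ohtsuki a)).prod ↔
      M.filter (· ≠ 0) = M'.filter (· ≠ 0) := by
  apply prod_eq_iff a ha
  intro d h3
  have h4 := top_N a α ha h d
  rw [h3, zero_mul] at h4
  have h5 := kap_ne α h1 h2 d
  have h6 : (kap (mu α) d : ℚ) ≠ 0 := by exact_mod_cast h5
  exact mul_ne_zero (pow_ne_zero _ (by norm_num)) h6 h4.symm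

/-! ### the terms -/

lemma term_dvd (a : ℕ → PowerSeries ℚ) (n : ℤ) (m : ℕ) :
    ∃ V : PowerSeries ℚ, term a n m = ((PowerSeries.X ^ m * V : PowerSeries ℚ) : LaurentSeries ℚ) := by
  have h1 : PowerSeries.X ^ m ∣ evalP n (T a m) := by
    rw [PowerSeries.X_pow_dvd_iff]
    intro r hr
    rw [evalP_coeff, T_low a m r hr, eval_zero]
  obtain ⟨V, hV⟩ := h1
  exact ⟨V, by rw [← evalP_T, hV]⟩

/-! ### the Borromean rings -/

/-- `(-1)^m q^{-m (m + 3) / 2} u_m(b) u_m(c)` -/
lemma exists_cyc (b c : ℤ) (m : ℕ) :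
    R ((-1) ^ m * q (-(m * (m + 3) / 2)) * (u m b * u m c)) (((-(b * c)) ^ m : ℤ) : ℚ) := by
  have h := ((R_one.neg.pow m).mul (R_q (-(m * (m + 3) / 2)))).mul ((R_u m b).mul (R_u m c))
  convert h using 1
  push_cast
  rw [mul_one, ← mul_pow, ← mul_pow]
  congr 1
  ring

noncomputable def cyc (b c : ℤ) (m : ℕ) : PowerSeries ℚ :=
  if m = 0 then 1 else (exists_cyc b c m).choose

lemma cyc_spec (b c : ℤ) (m : ℕ) :
    (-1) ^ m * q (-(m * (m + 3) / 2)) * (u m b * u m c) = (cyc b c m : LaurentSeries ℚ) ∧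
    PowerSeries.constantCoeff (cyc b c m) = (((-(b * c)) ^ m : ℤ) : ℚ) := by
  by_cases hm : m = 0
  · subst hm
    rw [cyc, if_pos rfl, u_zero, u_zero]
    constructor
    · simp [q_zero]
    · simp
  · rw [cyc, if_neg hm]
    exact (exists_cyc b c m).choose_spec

lemma bterm_eq (b c n : ℤ) (m : ℕ) : bterm b c n m = term (cyc b c) n m := by
  rw [bterm, term, ← (cyc_spec b c m).1]
  have h : q (-(m * (3 * m + 7) / 2)) = q (-(m * (m + 3) / 2)) * q (-((m : ℤ) * (m + 2))) := by
    rw [← q_add]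
    congr 1
    have h1 : (m : ℤ) * (3 * m + 7) = m * (m + 3) + (m * (m + 2)) * 2 := by ring
    rw [h1]
    have h2 := Int.even_mul_succ_self (m : ℤ)
    obtain ⟨x, hx⟩ := h2
    have h3 : (m : ℤ) * (m + 3) = (x + m) * 2 := by linear_combination hx
    rw [h3]
    generalize (m : ℤ) * (m + 2) = y
    omega
  rw [h]
  ring

lemma borromean_eq (b c n : ℤ) : borromean b c n = ohtsuki (cyc b c) n := by
  ext d
  rw [borromean, ohtsuki, PowerSeries.coeff_mk, PowerSeries.coeff_mk]
  simp only [bterm_eq]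

theorem borromean_iff (b c : ℤ) (hb : b ≠ 0) (hc : c ≠ 0) (M M' : Multiset ℤ) :
    (M.map (borromean b c)).prod = (M'.map (borromean b c)).prod ↔
      M.filter (· ≠ 0) = M'.filter (· ≠ 0) := by
  have h0 : borromean b c = ohtsuki (cyc b c) := by
    funext n; exact borromean_eq b c n
  rw [h0]
  apply general (cyc b c) (fun m => (-(b * c)) ^ m) (by rw [cyc, if_pos rfl])
    (fun m => (cyc_spec b c m).2)
  · rw [pow_one]
    exact neg_ne_zero.2 (mul_ne_zero hb hc)
  · right
    intro m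
    rw [pow_one]

end Pool.Agent.V8H83.LM
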