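import Pool.Agent.V8H83.LM.Mult

set_option autoImplicit false

open Finset Polynomial

namespace Pool.Agent.V8H83.LM

/-! ### no bounded part of the series is sufficient -/

lemma sm_add_left (M M' : Multiset ℤ) (Q : ℚ[X]) : sm (M + M') Q = sm M Q + sm M' Q := by
  rw [sm, Multiset.map_add, Multiset.sum_add]; rfl

lemma sm_replicate (c : ℕ) (v : ℤ) (Q : ℚ[X]) :
    sm (Multiset.replicate c v) Q = (c : ℚ) * Q.eval (v : ℚ) := by
  rw [sm, Multiset.map_replicate, Multiset.sum_replicate, nsmul_eq_mul]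

lemma sm_sum {ι : Type} (s : Finset ι) (M : ι → Multiset ℤ) (Q : ℚ[X]) :
    sm (∑ i ∈ s, M i) Q = ∑ i ∈ s, sm (M i) Q := by
  classical
  induction s using Finset.induction_on with
  | empty => simp [sm]
  | insert i s hi ih => rw [Finset.sum_insert hi, Finset.sum_insert hi, sm_add_left, ih]

/-- the numbers `k + 1` with the multiplicity `C(n, k)`, `n - k` even resp. odd -/
def PM (n : ℕ) (b : Bool) : Multiset ℤ :=
  ∑ k ∈ (range (n + 1)).filter (fun k => decide (Even (n - k)) = b),
    Multiset.replicate (n.choose k) ((k : ℤ) + 1)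

lemma PM_pos (n : ℕ) (b : Bool) (v : ℤ) (h : v ∈ PM n b) : 0 < v := by
  rw [PM, Multiset.mem_sum] at h
  obtain ⟨k, _, hk⟩ := h
  rw [Multiset.eq_of_mem_replicate hk]
  omega

lemma PM_ne (n : ℕ) : PM n true ≠ PM n false := by
  intro h
  have h1 : ((n : ℤ) + 1) ∈ PM n true := by
    rw [PM, Multiset.mem_sum]
    refine ⟨n, ?_, ?_⟩
    · simp
    · rw [Nat.choose_self, Multiset.mem_replicate]
      exact ⟨one_ne_zero, rfl⟩
  rw [h, PM, Multiset.mem_sum] at h1
  obtain ⟨k, hk, hk2⟩ := h1
  have h2 := Multiset.eq_of_mem_replicate hk2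
  have h3 : k = n := by omega
  subst h3
  simp at hk

lemma PM_sm (n : ℕ) (Q : ℚ[X]) (hQ : Q.natDegree < n) : sm (PM n true) Q = sm (PM n false) Q := by
  have h1 := fwdDiff_iter_eq_sum_shift (1 : ℚ) (fun x => Q.eval x) n 1
  have h2 := Polynomial.fwdDiff_iter_eq_zero_of_degree_lt hQ
  have h3 : (fwdDiff (1 : ℚ))^[n] (fun x => Q.eval x) 1 = 0 := congrFun h2 1
  rw [h1] at h3
  have h4 : sm (PM n true) Q - sm (PM n false) Q = 0 := by
    rw [PM, PM, sm_sum, sm_sum]
    simp only [sm_replicate]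
    rw [Finset.sum_filter, Finset.sum_filter, ← Finset.sum_sub_distrib]
    refine Eq.trans ?_ h3
    apply Finset.sum_congr rfl
    intro k _
    rcases Nat.even_or_odd (n - k) with h5 | h5
    · have h6 : ¬ (decide (Even (n - k)) = false) := by simpa using h5
      rw [if_pos (by simpa using h5), if_neg h6, h5.neg_one_pow]
      simp [add_comm]
    · have h6 : ¬ Even (n - k) := Nat.not_even_iff_odd.2 h5
      rw [if_neg (by simpa using h6), if_pos (by simpa using h6), h5.neg_one_pow]
      simp [add_comm]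
  linarith

lemma trunc (a : ℕ → PowerSeries ℚ) (ha : a 0 = 1) (M M' : Multiset ℤ) (D : ℕ)
    (h : ∀ d ≤ D, sm M (PowerSeries.coeff d (N a)) = sm M' (PowerSeries.coeff d (N a))) :
    ∀ d ≤ D, PowerSeries.coeff d (M.map (ohtsuki a)).prod =
      PowerSeries.coeff d (M'.map (ohtsuki a)).prod := by
  have key : ∀ (M : Multiset ℤ) (d : ℕ), 0 < d → PowerSeries.coeff d (M.map (ohtsuki a)).prod =
      (∑ i ∈ range d, PowerSeries.coeff i (M.map (ohtsuki a)).prod *
        sm M (PowerSeries.coeff (d - i) (N a))) / (d : ℚ) := by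
    intro M d hd
    have h1 := congrArg (PowerSeries.coeff d) (Dx_prod a ha M)
    have h0 := congrArg (PowerSeries.coeff 0) (Dx_prod a ha M)
    rw [coeff_Dx, PowerSeries.coeff_mul, Finset.Nat.sum_antidiagonal_eq_sum_range_succ
      (fun i j => PowerSeries.coeff i (M.map (ohtsuki a)).prod *
        PowerSeries.coeff j (M.map fun n => evalP n (N a)).sum) d, Finset.sum_range_succ,
      Nat.sub_self] at h1
    rw [coeff_Dx, PowerSeries.coeff_zero_eq_constantCoeff_apply,
      PowerSeries.coeff_zero_eq_constantCoeff_apply, map_mul, prod_const a ha, one_mul,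
      Nat.cast_zero, zero_mul] at h0
    rw [PowerSeries.coeff_zero_eq_constantCoeff_apply, ← h0, mul_zero, add_zero] at h1
    have hd' : (d : ℚ) ≠ 0 := by exact_mod_cast hd.ne'
    rw [eq_div_iff hd', mul_comm, h1]
    apply Finset.sum_congr rfl
    intro i _
    rw [coeff_sum_evalP]
    rfl
  intro d
  induction d using Nat.strong_induction_on with
  | _ d ih =>
    intro hd
    rcases Nat.eq_zero_or_pos d with h0 | h0
    · subst h0
      rw [PowerSeries.coeff_zero_eq_constantCoeff_apply,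
        PowerSeries.coeff_zero_eq_constantCoeff_apply, prod_const a ha, prod_const a ha]
    · rw [key M d h0, key M' d h0]
      congr 1
      apply Finset.sum_congr rfl
      intro i hi
      have hi' := Finset.mem_range.1 hi
      rw [ih i hi' (by omega), h (d - i) (by omega)]

theorem not_bounded (a : ℕ → PowerSeries ℚ) (ha : a 0 = 1) (D : ℕ) :
    ∃ M M' : Multiset ℤ, (∀ v ∈ M, 0 < v) ∧ (∀ v ∈ M', 0 < v) ∧ M ≠ M' ∧
      ∀ d ≤ D, PowerSeries.coeff d (M.map (ohtsuki a)).prod =
        PowerSeries.coeff d (M'.map (ohtsuki a)).prod := by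
  refine ⟨PM (D + 1) true, PM (D + 1) false, PM_pos _ _, PM_pos _ _, PM_ne _, ?_⟩
  apply trunc a ha
  intro d hd
  exact PM_sm _ _ (by have := good_N a ha d; omega)

end Pool.Agent.V8H83.LM
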