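import Pool.Agent.V8H83.LM.Defs
import Pool.Agent.V8H83.LM.Dd

set_option autoImplicit false

open Finset

namespace Pool.Agent.V8H83.LM

/-- `exp (m h)` -/
noncomputable def e (m : ℤ) : PowerSeries ℚ := PowerSeries.rescale (m : ℚ) (PowerSeries.exp ℚ)

/-- `(exp (m h) - 1) / h` -/
noncomputable def Ee (m : ℤ) : PowerSeries ℚ :=
  PowerSeries.mk fun k => (m : ℚ) ^ (k + 1) / ((k + 1).factorial : ℚ)

/-- the variable `h` -/
noncomputable def hh : LaurentSeries ℚ := ((PowerSeries.X : PowerSeries ℚ) : LaurentSeries ℚ)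

lemma q_eq (m : ℤ) : q m = (e m : LaurentSeries ℚ) := rfl

lemma e_coeff (m : ℤ) (k : ℕ) : PowerSeries.coeff k (e m) = (m : ℚ) ^ k / (k.factorial : ℚ) := by
  rw [e, PowerSeries.coeff_rescale, PowerSeries.coeff_exp]
  simp [div_eq_mul_inv]

lemma e_zero_coeff (m : ℤ) : PowerSeries.constantCoeff (e m) = 1 := by
  rw [← PowerSeries.coeff_zero_eq_constantCoeff_apply, e_coeff]; simp

lemma Ee_zero_coeff (m : ℤ) : PowerSeries.constantCoeff (Ee m) = m := by
  rw [← PowerSeries.coeff_zero_eq_constantCoeff_apply, Ee, PowerSeries.coeff_mk]; simp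

lemma e_add (m n : ℤ) : e (m + n) = e m * e n := by
  rw [e, e, e]
  push_cast
  rw [PowerSeries.exp_mul_exp_eq_exp_add]

lemma one_sub_e (m : ℤ) : 1 - e m = -(PowerSeries.X * Ee m) := by
  ext k
  rcases k with _ | k
  · have := e_zero_coeff m
    rw [map_sub, PowerSeries.coeff_zero_eq_constantCoeff_apply,
      PowerSeries.coeff_zero_eq_constantCoeff_apply, this]
    simp
  · rw [map_sub, map_neg, PowerSeries.coeff_succ_X_mul, Ee, PowerSeries.coeff_mk, e_coeff]
    simp [PowerSeries.coeff_one]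

lemma q_add (m n : ℤ) : q (m + n) = q m * q n := by
  rw [q_eq, q_eq, q_eq, e_add, PowerSeries.coe_mul]

lemma one_sub_q (m : ℤ) : 1 - q m = -(hh * (Ee m : LaurentSeries ℚ)) := by
  rw [q_eq, ← PowerSeries.coe_one, ← PowerSeries.coe_sub, one_sub_e, PowerSeries.coe_neg, hh,
    PowerSeries.coe_mul]

lemma q_zero : q 0 = 1 := by
  have h := one_sub_q 0
  have h0 : Ee 0 = 0 := by
    ext k
    rw [Ee, PowerSeries.coeff_mk]
    simp
  rw [h0, PowerSeries.coe_zero, mul_zero, neg_zero, sub_eq_zero] at h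
  exact h.symm

lemma q_ne (m : ℤ) : q m ≠ 0 := by
  intro h
  have h1 : q (m + -m) = 0 := by rw [q_add, h, zero_mul]
  rw [add_neg_cancel, q_zero] at h1
  exact one_ne_zero h1

lemma q_pow (m : ℤ) (k : ℕ) : q m ^ k = q (k * m) := by
  induction k with
  | zero => simp [q_zero]
  | succ k ih => rw [pow_succ, ih, ← q_add]; congr 1; push_cast; ring

lemma hh_ne : hh ≠ 0 := by
  intro h3
  rw [hh, ← PowerSeries.coe_zero] at h3
  exact PowerSeries.X_ne_zero (HahnSeries.ofPowerSeries_injective h3)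

/-- `x` is a power series with constant term `c`. -/
def R (x : LaurentSeries ℚ) (c : ℚ) : Prop :=
  ∃ V : PowerSeries ℚ, x = (V : LaurentSeries ℚ) ∧ PowerSeries.constantCoeff V = c

lemma R.mul {x y : LaurentSeries ℚ} {a b : ℚ} (hx : R x a) (hy : R y b) : R (x * y) (a * b) := by
  obtain ⟨V, rfl, rfl⟩ := hx
  obtain ⟨W, rfl, rfl⟩ := hy
  exact ⟨V * W, by rw [PowerSeries.coe_mul], by rw [map_mul]⟩

lemma R.add {x y : LaurentSeries ℚ} {a b : ℚ} (hx : R x a) (hy : R y b) : R (x + y) (a + b) := by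
  obtain ⟨V, rfl, rfl⟩ := hx
  obtain ⟨W, rfl, rfl⟩ := hy
  exact ⟨V + W, by rw [PowerSeries.coe_add], by rw [map_add]⟩

lemma R.neg {x : LaurentSeries ℚ} {a : ℚ} (hx : R x a) : R (-x) (-a) := by
  obtain ⟨V, rfl, rfl⟩ := hx
  exact ⟨-V, by rw [PowerSeries.coe_neg], by rw [map_neg]⟩

lemma R_one : R 1 1 := ⟨1, by rw [PowerSeries.coe_one], by simp⟩

lemma R_zero : R 0 0 := ⟨0, by rw [PowerSeries.coe_zero], by simp⟩

lemma R.inv {x : LaurentSeries ℚ} {a : ℚ} (hx : R x a) (ha : a ≠ 0) : R x⁻¹ a⁻¹ := by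
  obtain ⟨V, rfl, rfl⟩ := hx
  have h : V * V⁻¹ = 1 := PowerSeries.mul_inv_cancel V ha
  refine ⟨V⁻¹, ?_, ?_⟩
  · apply inv_eq_of_mul_eq_one_right
    rw [← PowerSeries.coe_mul, h, PowerSeries.coe_one]
  · rw [PowerSeries.constantCoeff_inv]

lemma R.div {x y : LaurentSeries ℚ} {a b : ℚ} (hx : R x a) (hy : R y b) (hb : b ≠ 0) :
    R (x / y) (a / b) := by
  rw [div_eq_mul_inv, div_eq_mul_inv]
  exact hx.mul (hy.inv hb)

lemma R.pow {x : LaurentSeries ℚ} {a : ℚ} (hx : R x a) (n : ℕ) : R (x ^ n) (a ^ n) := by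
  induction n with
  | zero => simpa using R_one
  | succ n ih => rw [pow_succ, pow_succ]; exact ih.mul hx

lemma R_sum {ι : Type} (s : Finset ι) (x : ι → LaurentSeries ℚ) (c : ι → ℚ)
    (h : ∀ i ∈ s, R (x i) (c i)) : R (∑ i ∈ s, x i) (∑ i ∈ s, c i) := by
  classical
  induction s using Finset.induction_on with
  | empty => simpa using R_zero
  | insert i s hi ih =>
    rw [Finset.sum_insert hi, Finset.sum_insert hi]
    exact (h i (Finset.mem_insert_self i s)).add (ih fun j hj => h j (Finset.mem_insert_of_mem hj))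

lemma R_prod {ι : Type} (s : Finset ι) (x : ι → LaurentSeries ℚ) (c : ι → ℚ)
    (h : ∀ i ∈ s, R (x i) (c i)) : R (∏ i ∈ s, x i) (∏ i ∈ s, c i) := by
  classical
  induction s using Finset.induction_on with
  | empty => simpa using R_one
  | insert i s hi ih =>
    rw [Finset.prod_insert hi, Finset.prod_insert hi]
    exact (h i (Finset.mem_insert_self i s)).mul (ih fun j hj => h j (Finset.mem_insert_of_mem hj))

lemma R.ne {x : LaurentSeries ℚ} {a : ℚ} (hx : R x a) (ha : a ≠ 0) : x ≠ 0 := by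
  rintro rfl
  obtain ⟨V, hV, rfl⟩ := hx
  rw [← PowerSeries.coe_zero] at hV
  have := HahnSeries.ofPowerSeries_injective hV
  rw [← this] at ha
  exact ha (map_zero _)

lemma R.unique {x : LaurentSeries ℚ} {a b : ℚ} (h1 : R x a) (h2 : R x b) : a = b := by
  obtain ⟨V, hV, rfl⟩ := h1
  obtain ⟨W, hW, rfl⟩ := h2
  rw [hV] at hW
  rw [HahnSeries.ofPowerSeries_injective hW]

lemma R_q (m : ℤ) : R (q m) 1 := ⟨e m, q_eq m, e_zero_coeff m⟩

/-- `(1 - q^m) / h` -/
lemma R_one_sub_q (m : ℤ) : ∃ x, 1 - q m = hh * x ∧ R x (-m) := by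
  refine ⟨-(Ee m : LaurentSeries ℚ), by rw [one_sub_q]; ring, ?_⟩
  exact R.neg ⟨Ee m, rfl, Ee_zero_coeff m⟩

lemma one_sub_q_ne {m : ℤ} (hm : m ≠ 0) : 1 - q m ≠ 0 := by
  obtain ⟨x, hx, hR⟩ := R_one_sub_q m
  rw [hx]
  exact mul_ne_zero hh_ne (hR.ne (by simpa using hm))

lemma poch_succ (n : ℕ) : poch (n + 1) = poch n * (1 - q (n + 1)) := by
  rw [poch, poch, Finset.prod_range_succ]

lemma poch_zero : poch 0 = 1 := by rw [poch, Finset.prod_range_zero]

lemma poch_ne (n : ℕ) : poch n ≠ 0 := by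
  rw [poch, Finset.prod_ne_zero_iff]
  intro j _
  exact one_sub_q_ne (by omega)

lemma R_poch (n : ℕ) : ∃ x, poch n = hh ^ n * x ∧ R x ((-1) ^ n * (n.factorial : ℚ)) := by
  induction n with
  | zero => exact ⟨1, by rw [poch_zero]; simp, by simpa using R_one⟩
  | succ n ih =>
    obtain ⟨x, hx, hR⟩ := ih
    obtain ⟨y, hy, hS⟩ := R_one_sub_q (n + 1)
    refine ⟨x * y, ?_, ?_⟩
    · rw [poch_succ, hx, hy]; ring
    · have := hR.mul hS
      convert this using 1
      rw [Nat.factorial_succ]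
      push_cast
      ring

/-! ### the nodes -/

/-- the nodes `q^k + q^(-k-1)` -/
noncomputable def Xn (k : ℕ) : LaurentSeries ℚ := q k + q (-k - 1)

lemma Xn_sub (k l : ℕ) : Xn k - Xn l = q (-k - 1) * (1 - q (k - l)) * (1 - q (k + l + 1)) := by
  have e1 : q (-k - 1) * q (k - l) = q (-l - 1) := by rw [← q_add]; congr 1; ring
  have e2 : q (-k - 1) * q (k + l + 1) = q l := by rw [← q_add]; congr 1; ring
  have e3 : q (-k - 1) * q (k - l) * q (k + l + 1) = q k := by
    rw [← q_add, ← q_add]; congr 1; ring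
  rw [Xn, Xn]
  linear_combination e1 + e2 - e3

lemma Xn_sub_R (k l : ℕ) : ∃ x, Xn k - Xn l = hh ^ 2 * x ∧
    R x ((k * (k + 1) : ℕ) - (l * (l + 1) : ℕ)) := by
  obtain ⟨x, hx, hR⟩ := R_one_sub_q (k - l)
  obtain ⟨y, hy, hS⟩ := R_one_sub_q (k + l + 1)
  refine ⟨q (-k - 1) * x * y, ?_, ?_⟩
  · rw [Xn_sub, hx, hy]; ring
  · have := ((R_q (-k - 1)).mul hR).mul hS
    convert this using 1
    push_cast
    ring

lemma lam_ne {k l : ℕ} (h : k ≠ l) : ((k * (k + 1) : ℕ) : ℚ) - (l * (l + 1) : ℕ) ≠ 0 := by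
  rw [sub_ne_zero]
  intro h1
  have h2 : k * (k + 1) = l * (l + 1) := by exact_mod_cast h1
  rcases lt_or_gt_of_ne h with h3 | h3
  · have : k * (k + 1) < l * (l + 1) := by nlinarith
    omega
  · have : l * (l + 1) < k * (k + 1) := by nlinarith
    omega

lemma Xn_inj : Function.Injective Xn := by
  intro k l h
  by_contra hkl
  obtain ⟨x, hx, hR⟩ := Xn_sub_R k l
  have h0 : Xn k - Xn l = 0 := sub_eq_zero.2 h
  rw [hx] at h0
  rcases mul_eq_zero.1 h0 with h1 | h1
  · exact pow_ne_zero 2 hh_ne h1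
  · exact hR.ne (lam_ne hkl) h1

lemma half1 (k : ℤ) : k * (k - 1) / 2 + k * (k + 3) / 2 = k * (k + 1) := by
  obtain ⟨x, hx⟩ := Int.even_mul_pred_self k
  have h1 : k * (k - 1) / 2 = x := by rw [hx]; omega
  have h2 : k * (k + 3) = 2 * (x + 2 * k) := by linear_combination hx
  rw [h1, h2, Int.mul_ediv_cancel_left _ (by norm_num)]
  linarith

lemma half2 (m : ℤ) : (m + 1) * (m + 1 + 3) / 2 = m * (m + 3) / 2 + (m + 2) := by
  have h : (m + 1) * (m + 1 + 3) = m * (m + 3) + (m + 2) * 2 := by ring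
  rw [h, Int.add_mul_ediv_right _ _ (by norm_num)]

lemma prod_base (k : ℕ) : ∏ l ∈ range k, (Xn k - Xn l) = q (-(k * (k + 1))) * poch (2 * k) := by
  have h1 : ∏ l ∈ range k, (1 - q ((k : ℤ) - l)) = poch k := by
    rw [poch, ← Finset.prod_range_reflect]
    apply Finset.prod_congr rfl
    intro l hl
    have hl' := Finset.mem_range.1 hl
    congr 2
    omega
  have h2 : poch (2 * k) = poch k * ∏ l ∈ range k, (1 - q ((k : ℤ) + l + 1)) := by
    rw [poch, poch, two_mul, Finset.prod_range_add]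
    simp only [Nat.cast_add]
  rw [h2, ← h1]
  simp only [Xn_sub]
  rw [Finset.prod_mul_distrib, Finset.prod_mul_distrib, Finset.prod_const, Finset.card_range, q_pow]
  have : (k : ℤ) * (-k - 1) = -(k * (k + 1)) := by ring
  rw [this]
  ring

lemma prod_nodes (k d : ℕ) :
    (∏ l ∈ (range (k + d + 1)).erase k, (Xn k - Xn l)) * (1 - q (2 * k + 1)) =
      (-1) ^ d * q (-(k * (k - 1) / 2) - ((k + d : ℕ) : ℤ) * (((k + d : ℕ) : ℤ) + 3) / 2) *
        (poch d * poch (k + d + k + 1)) := by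
  induction d with
  | zero =>
    have h1 : (range (k + 0 + 1)).erase k = range k := by
      ext x; simp only [Finset.mem_erase, Finset.mem_range]; omega
    rw [h1, prod_base, poch_zero, pow_zero]
    have h2 : k + 0 + k + 1 = 2 * k + 1 := by omega
    rw [h2, poch_succ]
    have h3 : (-(k * (k - 1) / 2) - ((k + 0 : ℕ) : ℤ) * (((k + 0 : ℕ) : ℤ) + 3) / 2) =
        -((k : ℤ) * (k + 1)) := by
      have := half1 k
      push_cast
      simp only [add_zero]
      rw [← this]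
      ring
    rw [h3]
    push_cast
    ring
  | succ d ih =>
    have h1 : (range (k + (d + 1) + 1)).erase k = insert (k + d + 1) ((range (k + d + 1)).erase k) := by
      ext x; simp only [Finset.mem_erase, Finset.mem_range, Finset.mem_insert]; omega
    rw [h1, Finset.prod_insert (by simp), mul_assoc, ih]
    have h2 : k + (d + 1) + k + 1 = (k + d + k + 1) + 1 := by omega
    rw [h2, poch_succ (k + d + k + 1), poch_succ d]
    have h3 : Xn k - Xn (k + d + 1) =
        -(q (-(k + d + 2)) * (1 - q (d + 1)) * (1 - q (((k + d + k + 1 : ℕ) : ℤ) + 1))) := by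
      rw [Xn_sub]
      have e1 : q (-(k : ℤ) - 1) * (1 - q ((k : ℤ) - ((k + d + 1 : ℕ) : ℤ))) =
          -(q (-(k + d + 2)) * (1 - q (d + 1))) := by
        have a1 : q (-(k : ℤ) - 1) * q ((k : ℤ) - ((k + d + 1 : ℕ) : ℤ)) = q (-(k + d + 2)) := by
          rw [← q_add]; congr 1; push_cast; ring
        have a2 : q (-((k : ℤ) + d + 2)) * q (d + 1) = q (-(k : ℤ) - 1) := by
          rw [← q_add]; congr 1; ring
        linear_combination (-1 : LaurentSeries ℚ) * a1 - a2
      rw [e1]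
      have e2 : (k : ℤ) + ((k + d + 1 : ℕ) : ℤ) + 1 = ((k + d + k + 1 : ℕ) : ℤ) + 1 := by
        push_cast; ring
      rw [e2]
      ring
    have h4 : q (-(k * (k - 1) / 2) - ((k + (d + 1) : ℕ) : ℤ) * (((k + (d + 1) : ℕ) : ℤ) + 3) / 2) =
        q (-(k * (k - 1) / 2) - ((k + d : ℕ) : ℤ) * (((k + d : ℕ) : ℤ) + 3) / 2) *
          q (-(k + d + 2)) := by
      rw [← q_add]
      congr 1
      have := half2 ((k + d : ℕ) : ℤ)
      have e3 : ((k + (d + 1) : ℕ) : ℤ) = ((k + d : ℕ) : ℤ) + 1 := by push_cast; ring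
      rw [e3, this]
      push_cast
      ring
    rw [h3, h4, pow_succ]
    ring

/-- the sequence `q^(p k (k+1))` -/
noncomputable def fq (p : ℤ) (k : ℕ) : LaurentSeries ℚ := q (k * (k + 1) * p)

/-- The coefficients of the surgery element are divided differences. -/
lemma u_eq (m : ℕ) (p : ℤ) : u m p = poch m * E Xn (fq p) (range (m + 1)) := by
  unfold u E
  rw [show (-1 : LaurentSeries ℚ) ^ m * q (m * (m + 3) / 2) * poch m =
    poch m * ((-1) ^ m * q (m * (m + 3) / 2)) by ring, mul_assoc, Finset.mul_sum]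
  congr 1
  apply Finset.sum_congr rfl
  intro k hk
  obtain ⟨d, rfl⟩ : ∃ d, m = k + d := ⟨m - k, by have := Finset.mem_range.1 hk; omega⟩
  have h := prod_nodes k d
  have hd : k + d - k = d := by omega
  rw [hd]
  have hP : ∏ l ∈ (range (k + d + 1)).erase k, (Xn k - Xn l) ≠ 0 := by
    rw [Finset.prod_ne_zero_iff]
    intro l hl
    exact sub_ne_zero.2 (fun h => (Finset.ne_of_mem_erase hl) (Xn_inj h).symm)
  have h1 := poch_ne d
  have h2 := poch_ne (k + d + k + 1)
  have h3 : (1 : LaurentSeries ℚ) - q (2 * k + 1) ≠ 0 := one_sub_q_ne (by omega)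
  rw [fq, eq_div_iff hP]
  have h4 : ((-1 : LaurentSeries ℚ) ^ (k + d) * q (((k + d : ℕ) : ℤ) * (((k + d : ℕ) : ℤ) + 3) / 2) *
      ((-1) ^ k * q (k * (k + 1) * p + k * (k - 1) / 2) * (1 - q (2 * k + 1)) /
        (poch (k + d + k + 1) * poch d))) * ∏ l ∈ (range (k + d + 1)).erase k, (Xn k - Xn l) =
      (-1) ^ (k + d) * (-1) ^ k * (q (((k + d : ℕ) : ℤ) * (((k + d : ℕ) : ℤ) + 3) / 2) *
        q (k * (k + 1) * p + k * (k - 1) / 2)) *
        ((∏ l ∈ (range (k + d + 1)).erase k, (Xn k - Xn l)) * (1 - q (2 * k + 1))) /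
        (poch (k + d + k + 1) * poch d) := by
    ring
  rw [h4, h]
  have h5 : (-1 : LaurentSeries ℚ) ^ (k + d) * (-1) ^ k * (-1) ^ d = 1 := by
    rw [← pow_add, ← pow_add]
    exact Even.neg_one_pow ⟨k + d, by ring⟩
  have h6 : q (((k + d : ℕ) : ℤ) * (((k + d : ℕ) : ℤ) + 3) / 2) *
      q (k * (k + 1) * p + k * (k - 1) / 2) *
      q (-(k * (k - 1) / 2) - ((k + d : ℕ) : ℤ) * (((k + d : ℕ) : ℤ) + 3) / 2) =
      q (k * (k + 1) * p) := by
    rw [← q_add, ← q_add]; congr 1; ring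
  rw [div_eq_iff (mul_ne_zero h2 h1)]
  linear_combination (q (k * (k + 1) * p) * (poch (k + d + k + 1) * poch d)) * h5 +
    ((-1 : LaurentSeries ℚ) ^ (k + d) * (-1) ^ k * (-1) ^ d * (poch (k + d + k + 1) * poch d)) * h6

/-- the divided differences of `q^(k (k+1))` -/
lemma dd_one (i : ℕ) : ∀ j : ℕ, dd Xn (fq 1) i j * poch i =
    (-1) ^ i * q ((j : ℤ) * j + j + i * j + i * (i + 3) / 2) := by
  induction i with
  | zero =>
    intro j
    rw [dd, fq, poch_zero]
    simp only [pow_zero, mul_one, one_mul]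
    congr 1
    push_cast
    ring_nf
  | succ i ih =>
    intro j
    have h := dd_succ Xn (fq 1) Xn_inj i j
    have h1 := ih j
    have h2 := ih (j + 1)
    have h3 : Xn (j + i + 1) - Xn j ≠ 0 := by
      rw [sub_ne_zero]
      intro h
      have := Xn_inj h
      omega
    apply mul_left_cancel₀ h3
    rw [poch_succ]
    have h4 : Xn (j + i + 1) - Xn j = q (-(j + i + 2)) * (1 - q (i + 1)) * (1 - q (2 * j + i + 2)) := by
      have a1 : Xn (j + i + 1) - Xn j = -(Xn j - Xn (j + i + 1)) := by ring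
      rw [a1, Xn_sub]
      have a2 : q (-(j : ℤ) - 1) * (1 - q ((j : ℤ) - ((j + i + 1 : ℕ) : ℤ))) =
          -(q (-(j + i + 2)) * (1 - q (i + 1))) := by
        have b1 : q (-(j : ℤ) - 1) * q ((j : ℤ) - ((j + i + 1 : ℕ) : ℤ)) = q (-(j + i + 2)) := by
          rw [← q_add]; congr 1; push_cast; ring
        have b2 : q (-((j : ℤ) + i + 2)) * q (i + 1) = q (-(j : ℤ) - 1) := by
          rw [← q_add]; congr 1; ring
        linear_combination (-1 : LaurentSeries ℚ) * b1 - b2
      rw [a2]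
      have a3 : (j : ℤ) + ((j + i + 1 : ℕ) : ℤ) + 1 = 2 * j + i + 2 := by push_cast; ring
      rw [a3]
      ring
    have h5 : q (((j + 1 : ℕ) : ℤ) * (j + 1 : ℕ) + (j + 1 : ℕ) + i * (j + 1 : ℕ) + i * (i + 3) / 2) =
        q ((j : ℤ) * j + j + i * j + i * (i + 3) / 2) * q (2 * j + i + 2) := by
      rw [← q_add]; congr 1; push_cast; ring
    have h6 : q ((j : ℤ) * j + j + ((i + 1 : ℕ) : ℤ) * j + ((i + 1 : ℕ) : ℤ) * (((i + 1 : ℕ) : ℤ) + 3) / 2) *
        q (-(j + i + 2)) = q ((j : ℤ) * j + j + i * j + i * (i + 3) / 2) := by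
      rw [← q_add]; congr 1
      have := half2 (i : ℤ)
      push_cast
      rw [this]
      ring
    rw [h5] at h2
    calc (Xn (j + i + 1) - Xn j) * (dd Xn (fq 1) (i + 1) j * (poch i * (1 - q (i + 1)))) =
        ((Xn (j + i + 1) - Xn j) * dd Xn (fq 1) (i + 1) j) * poch i * (1 - q (i + 1)) := by ring
      _ = (dd Xn (fq 1) i (j + 1) * poch i - dd Xn (fq 1) i j * poch i) * (1 - q (i + 1)) := by
        rw [h]; ring
      _ = _ := by
        rw [h1, h2, h4, pow_succ, ← h6]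
        ring

lemma fq_mul (p : ℤ) : fq (p + 1) = fun k => fq p k * fq 1 k := by
  funext k
  rw [fq, fq, fq, ← q_add]
  congr 1
  ring

/-- for `p ≥ 0` the divided differences of `q^(p k (k+1))` are `h^(-i)` times power series -/
lemma R_dd (p : ℕ) : ∀ i j : ℕ, R (hh ^ i * dd Xn (fq p) i j) ((p : ℚ) ^ i / (i.factorial : ℚ)) := by
  have h1 : ∀ i j : ℕ, R (hh ^ i * dd Xn (fq 1) i j) (1 / (i.factorial : ℚ)) := by
    intro i j
    obtain ⟨x, hx, hR⟩ := R_poch i
    have h := dd_one i j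
    have hne : x ≠ 0 := hR.ne (mul_ne_zero (pow_ne_zero _ (by norm_num))
      (by exact_mod_cast i.factorial_ne_zero))
    have h2 : hh ^ i * dd Xn (fq 1) i j =
        ((-1) ^ i * q ((j : ℤ) * j + j + i * j + i * (i + 3) / 2)) / x := by
      rw [eq_div_iff hne, ← h, hx]; ring
    rw [h2]
    have h3 := ((R_one.neg.pow i).mul (R_q ((j : ℤ) * j + j + i * j + i * (i + 3) / 2))).div hR
      (mul_ne_zero (pow_ne_zero _ (by norm_num)) (by exact_mod_cast i.factorial_ne_zero))
    convert h3 using 1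
    have h4 : ((-1 : ℚ)) ^ i ≠ 0 := pow_ne_zero _ (by norm_num)
    have h5 : (i.factorial : ℚ) ≠ 0 := by exact_mod_cast i.factorial_ne_zero
    field_simp
  induction p with
  | zero =>
    intro i j
    have h0 : fq ((0 : ℕ) : ℤ) = fun _ => 1 := by
      funext k; rw [fq]; simp [q_zero]
    rw [h0]
    rcases i with _ | i
    · simpa [dd] using R_one
    · rw [dd_const]; simpa using R_zero
  | succ p ih =>
    intro i j
    have h2 : fq ((p + 1 : ℕ) : ℤ) = fun k => fq p k * fq 1 k := by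
      rw [← fq_mul]; push_cast; rfl
    rw [h2, dd_mul Xn _ _ Xn_inj, Finset.mul_sum]
    have h3 : ∀ t ∈ range (i + 1), R (hh ^ i * (dd Xn (fq p) t j * dd Xn (fq 1) (i - t) (j + t)))
        ((p : ℚ) ^ t / (t.factorial : ℚ) * (1 / ((i - t).factorial : ℚ))) := by
      intro t ht
      have ht' : t ≤ i := by simpa [Nat.lt_succ_iff] using ht
      have := (ih t j).mul (h1 (i - t) (j + t))
      convert this using 1
      have h4 : hh ^ i = hh ^ t * hh ^ (i - t) := by rw [← pow_add]; congr 1; omega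
      rw [h4]; ring
    have h4 := R_sum _ _ _ h3
    convert h4 using 1
    push_cast
    rw [add_pow, Finset.sum_div]
    apply Finset.sum_congr rfl
    intro t ht
    have ht' : t ≤ i := by simpa [Nat.lt_succ_iff] using ht
    have h5 := Nat.choose_mul_factorial_mul_factorial ht'
    have h6 : (i.choose t : ℚ) * t.factorial * (i - t).factorial = i.factorial := by exact_mod_cast h5
    have h7 : (i.factorial : ℚ) ≠ 0 := by exact_mod_cast i.factorial_ne_zero
    have h8 : (t.factorial : ℚ) ≠ 0 := by exact_mod_cast t.factorial_ne_zero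
    have h9 : ((i - t).factorial : ℚ) ≠ 0 := by exact_mod_cast (i - t).factorial_ne_zero
    rw [one_pow, mul_one]
    field_simp
    rw [← h6]
    ring

/-- for `p ≥ 0` the coefficients of the surgery element are power series -/
lemma R_u_nat (m p : ℕ) : R (u m p) ((-(p : ℚ)) ^ m) := by
  rw [u_eq]
  obtain ⟨x, hx, hR⟩ := R_poch m
  have h := dd_eq_E Xn (fq p) Xn_inj m 0
  rw [Icc_zero] at h
  rw [← h, hx]
  have h2 := hR.mul (R_dd p m 0)
  have h3 : (m.factorial : ℚ) ≠ 0 := by exact_mod_cast m.factorial_ne_zero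
  convert h2 using 1
  · ring
  · rw [neg_pow]; field_simp

end Pool.Agent.V8H83.LM
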